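import Pool.Agent.NH33.CT.Stm

/-!
# CT-CHAIN: all families of Weil numbers
-/

set_option autoImplicit false

namespace Pool.Agent.NH33.CT

open Multiset

namespace Chain

variable {Ω : Type} [Field Ω]

/-- the hypotheses on `T` -/
structure Hy (q : ℕ) (T : Multiset Ω → Prop) : Prop where
  zero : T 0
  add : ∀ m m', T m → T m' → T (m + m')
  pair : ∀ a b : Ω, a * b = q → T {a, b}
  quad : ∀ a b c d : Ω, a * b * c * d = (q : Ω) ^ 2 → T {a, b, c, d}
  rem : ∀ (m : Multiset Ω) (a b : Ω), IsWeil q a → a * b = q → T (m + {a, b}) → T m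

variable {q : ℕ} {T : Multiset Ω → Prop}

omit [Field Ω] in
theorem pr (x y : Ω) : ({x, y} : Multiset Ω) = {x} + {y} := rfl

omit [Field Ω] in
theorem pr4 (x y z w : Ω) : ({x, y, z, w} : Multiset Ω) = {x} + {y} + {z} + {w} := rfl

theorem rem_rep (h : Hy q T) {x y : Ω} (hx : IsWeil q x) (hxy : x * y = q) (n : ℕ) :
    ∀ M : Multiset Ω, T (M + replicate n x + replicate n y) → T M := by
  induction n with
  | zero => intro M h1; simpa using h1
  | succ n ih =>
    intro M h1
    apply ih
    apply h.rem _ x y hx hxy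
    rw [replicate_succ, replicate_succ, ← singleton_add x, ← singleton_add y] at h1
    have e : M + replicate n x + replicate n y + {x, y} =
        M + ({x} + replicate n x) + ({y} + replicate n y) := by
      rw [pr]; abel
    rw [e]
    exact h1

theorem rem_even (h : Hy q T) {s : Ω} (hs : IsWeil q s) (hss : s * s = q) (t : ℕ)
    (M : Multiset Ω) (h1 : T (M + replicate (2 * t) s)) : T M := by
  apply rem_rep h hs hss t
  have e : M + replicate t s + replicate t s = M + replicate (2 * t) s := by
    rw [two_mul, replicate_add]; abel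
  rw [e]
  exact h1

/-- the normalised partial products -/
noncomputable def cc (ρ : ℕ → Ω) (s : Ω) (j : ℕ) : Ω := (∏ i ∈ Finset.range (j + 1), ρ i) / s ^ j

theorem cc_succ (ρ : ℕ → Ω) {s : Ω} (hs : s ≠ 0) (j : ℕ) :
    cc ρ s (j + 1) = cc ρ s j * ρ (j + 1) / s := by
  unfold cc
  rw [Finset.prod_range_succ _ (j + 1), pow_succ]
  field_simp

theorem lemA (h : Hy q T) {s : Ω} (hss : s * s = q) (hs0 : s ≠ 0)
    (hne : ∀ c : Ω, IsWeil q c → c ≠ 0) (ρ : ℕ → Ω) (hρ : ∀ i, IsWeil q (ρ i)) :
    ∀ k, (∀ j ≤ k, IsWeil q (cc ρ s j)) →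
      T ((Multiset.range (k + 1)).map ρ + {(q : Ω) / cc ρ s k} + replicate k s) := by
  intro k
  induction k with
  | zero =>
    intro _
    have h0 : cc ρ s 0 = ρ 0 := by simp [cc]
    have h1 : ρ 0 * ((q : Ω) / ρ 0) = q := by
      have := hne _ (hρ 0)
      field_simp
    have h2 := h.pair _ _ h1
    rw [h0]
    simpa [pr] using h2
  | succ k ih =>
    intro hc
    have hck := hc k (by omega)
    have hck' := hc (k + 1) le_rfl
    have n1 := hne _ hck
    have n2 := hne _ hck'
    have n3 := hne _ (hρ (k + 1))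
    have i1 := ih (fun j hj => hc j (by omega))
    have i2 : T {cc ρ s k, ρ (k + 1), (q : Ω) / cc ρ s (k + 1), s} := by
      apply h.quad
      rw [cc_succ ρ hs0]
      have e : cc ρ s k * ρ (k + 1) * ((q : Ω) / (cc ρ s k * ρ (k + 1) / s)) * s =
          q * (s * s) := by
        field_simp
      rw [e, hss]; ring
    have i3 := h.add _ _ i1 i2
    apply h.rem _ (cc ρ s k) ((q : Ω) / cc ρ s k) hck (by field_simp)
    have e : (Multiset.range (k + 1 + 1)).map ρ + {(q : Ω) / cc ρ s (k + 1)} +
        replicate (k + 1) s + {cc ρ s k, (q : Ω) / cc ρ s k} =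
        (Multiset.range (k + 1)).map ρ + {(q : Ω) / cc ρ s k} + replicate k s +
          {cc ρ s k, ρ (k + 1), (q : Ω) / cc ρ s (k + 1), s} := by
      rw [pr, pr4, Multiset.range_succ (k + 1), map_cons, ← singleton_add (ρ (k + 1)),
        replicate_succ, ← singleton_add s]
      abel
    rw [e]
    exact i3

omit [Field Ω] in
/-- the multiset as a family -/
theorem family (m : Multiset Ω) (s : Ω) :
    ∃ π : ℕ → Ω, m = (Multiset.range m.card).map π ∧ ∀ i, π i ∈ m ∨ π i = s := by
  obtain ⟨l, rfl⟩ := Quotient.exists_rep m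
  refine ⟨fun i => l.getD i s, ?_, ?_⟩
  · show (l : Multiset Ω) = _
    have e : (Multiset.range (Multiset.card (l : Multiset Ω))).map (fun i => l.getD i s) =
        (((List.range l.length).map (fun i => l.getD i s) : List Ω) : Multiset Ω) := by
      rfl
    have e2 : (List.range l.length).map (fun i => l.getD i s) = l := by
      apply List.ext_getElem
      · simp
      · intro i h1 h2
        simp [List.getD_eq_getElem?_getD, h2]
    exact (congrArg (fun x : List Ω => (x : Multiset Ω)) e2).symm.trans e.symm
  · intro i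
    by_cases hi : i < l.length
    · left
      have : l.getD i s = l[i] := by simp [List.getD_eq_getElem?_getD, hi]
      have h2 : l.getD i s ∈ l := by rw [this]; exact List.getElem_mem hi
      exact h2
    · right
      simp [List.getD_eq_getElem?_getD, List.getElem?_eq_none (not_lt.mp hi)]

end Chain

open Chain in
theorem t_CHAIN : S_WN → S_CHAIN := by
  intro hWN Ω _ _ _ q hq T hT0 hTadd hTpair hTquad hTrem m r hm hcard hprod
  have h : Hy q T := ⟨hT0, hTadd, hTpair, hTquad, hTrem⟩
  obtain ⟨w1, w2, w3⟩ := hWN Ω q hq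
  have hne : ∀ c : Ω, IsWeil q c → c ≠ 0 := fun c hc => (w1 c hc).1
  have hq0 : (q : Ω) ≠ 0 := by exact_mod_cast hq.ne'
  rcases Nat.eq_zero_or_pos r with hr | hr
  · subst hr
    have : m = 0 := Multiset.card_eq_zero.mp (by omega)
    rw [this]; exact hT0
  obtain ⟨s, hs⟩ := IsAlgClosed.exists_pow_nat_eq (q : Ω) (n := 2) (by norm_num)
  have hss : s * s = q := by rw [← pow_two]; exact hs
  have hs0 : s ≠ 0 := by
    intro h0; rw [h0, mul_zero] at hss; exact hq0 hss.symm
  have hsW : IsWeil q s := w2 s hs
  set N := 2 * r with hN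
  have hN1 : N - 1 + 1 = N := by omega
  obtain ⟨π, hπ, hπm⟩ := family m s
  rw [hcard] at hπ
  have hπW : ∀ i, IsWeil q (π i) := by
    intro i
    rcases hπm i with h1 | h1
    · exact hm _ h1
    · rw [h1]; exact hsW
  have hsN : s ^ N = (q : Ω) ^ r := by rw [hN, pow_mul, hs]
  -- the roots
  have hroot : ∀ i, ∃ x : Ω, x ^ N = π i * s ^ (N - 1) := fun i =>
    IsAlgClosed.exists_pow_nat_eq _ (by omega)
  choose ρ₀ hρ₀ using hroot
  have hπprod : ∏ i ∈ Finset.range N, π i = (q : Ω) ^ r := by
    rw [← hprod]
    conv_rhs => rw [hπ]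
    rfl
  have hP : (∏ i ∈ Finset.range N, ρ₀ i) ^ N = ((q : Ω) ^ r) ^ N := by
    rw [← Finset.prod_pow, Finset.prod_congr rfl (fun i _ => hρ₀ i), Finset.prod_mul_distrib,
      hπprod, Finset.prod_const, Finset.card_range, ← hsN, ← pow_mul, ← pow_mul, ← pow_add]
    congr 1
    have : N * N = (N - 1) * N + N := by
      conv_lhs => rw [← hN1]
      rw [hN1]
      calc N * N = (N - 1 + 1) * N := by rw [hN1]
        _ = (N - 1) * N + N := by ring
    omega
  set ζ : Ω := (∏ i ∈ Finset.range N, ρ₀ i) / (q : Ω) ^ r with hζ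
  have hqr : (q : Ω) ^ r ≠ 0 := pow_ne_zero _ hq0
  have hζN : ζ ^ N = 1 := by
    rw [hζ, div_pow, hP]
    exact div_self (pow_ne_zero _ hqr)
  have hζ0 : ζ ≠ 0 := by
    intro h0
    rw [h0, zero_pow (by omega)] at hζN
    exact zero_ne_one hζN
  obtain ⟨ρ, hρ, hρprod⟩ : ∃ ρ : ℕ → Ω, (∀ i, ρ i ^ N = π i * s ^ (N - 1)) ∧
      ∏ i ∈ Finset.range N, ρ i = (q : Ω) ^ r := by
    refine ⟨fun i => if i = 0 then ρ₀ 0 / ζ else ρ₀ i, ?_, ?_⟩
    · intro i
      by_cases hi : i = 0
      · subst hi
        simp only [if_true]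
        rw [div_pow, hζN, div_one, hρ₀]
      · simp only [hi, if_false]
        exact hρ₀ i
    · have e1 : ∀ g : ℕ → Ω, ∏ i ∈ Finset.range N, g i =
          (∏ i ∈ Finset.range (N - 1), g (i + 1)) * g 0 := by
        intro g
        conv_lhs => rw [← hN1]
        exact Finset.prod_range_succ' g (N - 1)
      rw [e1]
      simp only [Nat.succ_ne_zero, if_false, if_true]
      have e2 := e1 ρ₀
      have e3 : (∏ i ∈ Finset.range (N - 1), ρ₀ (i + 1)) * (ρ₀ 0 / ζ) =
          (∏ i ∈ Finset.range N, ρ₀ i) / ζ := by
        rw [e2]; ring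
      rw [e3, hζ]
      have hne0 : ∏ i ∈ Finset.range N, ρ₀ i ≠ 0 := by
        intro h0
        rw [hζ, h0, zero_div] at hζ0
        exact hζ0 rfl
      field_simp
  have hρW : ∀ i, IsWeil q (ρ i) := by
    intro i
    refine w3 {π i} (N - 1) s (ρ i) (fun c hc => ?_) hs ?_ ?_
    · rw [Multiset.mem_singleton] at hc; rw [hc]; exact hπW i
    · simp
    · have : Multiset.card ({π i} : Multiset Ω) + (N - 1) = N := by
        rw [Multiset.card_singleton]; omega
      rw [this, Multiset.prod_singleton]
      exact hρ i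
  -- (i)
  have hi : ∀ i, T (replicate N ((q : Ω) / ρ i) + {π i} + replicate (N - 1) s) := by
    intro i
    have n1 := hne _ (hρW i)
    have n2 := hne _ (hπW i)
    set x : Ω := (q : Ω) / ρ i with hx
    have hxW : IsWeil q x := (w1 _ (hρW i)).2
    have hxN : x ^ N = ((q : Ω) / π i) * s ^ (N - 1) := by
      rw [hx, div_pow, hρ i]
      have e : (q : Ω) ^ N = q * (s ^ (N - 1) * s ^ (N - 1)) := by
        calc (q : Ω) ^ N = q * q ^ (N - 1) := by conv_lhs => rw [← hN1, pow_succ', ]
          _ = q * (s ^ (N - 1) * s ^ (N - 1)) := by rw [← hss, mul_pow, hss]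
      rw [e]
      have := pow_ne_zero (N - 1) hs0
      field_simp
    have hcc : ∀ j, cc (fun _ => x) s j = x ^ (j + 1) / s ^ j := by
      intro j
      unfold cc
      rw [Finset.prod_const, Finset.card_range]
    have hW : ∀ j ≤ N - 1, IsWeil q (cc (fun _ => x) s j) := by
      intro j hj
      refine w3 (replicate (j + 1) ((q : Ω) / π i)) (N - 1 - j) s _ (fun c hc => ?_) hs ?_ ?_
      · rw [Multiset.eq_of_mem_replicate hc]; exact (w1 _ (hπW i)).2
      · simp
      · have : Multiset.card (replicate (j + 1) ((q : Ω) / π i)) + (N - 1 - j) = N := by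
          rw [Multiset.card_replicate]; omega
        rw [this, Multiset.prod_replicate, hcc, div_pow, ← pow_mul, mul_comm (j + 1) N, pow_mul, hxN,
          mul_pow, ← pow_mul, ← pow_mul]
        have e : (N - 1) * (j + 1) = (N - 1 - j) + j * N := by
          obtain ⟨d, hd⟩ := Nat.exists_eq_add_of_le hj
          have hN2 : N = j + d + 1 := by omega
          rw [hd, hN2]
          have : j + d - j = d := by omega
          rw [this]; ring
        rw [e, pow_add]
        have := pow_ne_zero (j * N) hs0
        field_simp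
        ring
    have hA := lemA h hss hs0 hne (fun _ => x) (fun _ => hxW) (N - 1) hW
    rw [hN1, hcc, hN1, hxN] at hA
    have e1 : (q : Ω) / (q / π i * s ^ (N - 1) / s ^ (N - 1)) = π i := by
      have := pow_ne_zero (N - 1) hs0
      field_simp
    rw [e1] at hA
    have e2 : (Multiset.range N).map (fun _ => x) = replicate N x := by
      rw [Multiset.map_const', Multiset.card_range]
    rw [e2] at hA
    exact hA
  -- (ii)
  have hii : T ((Multiset.range N).map ρ) := by
    have hW : ∀ j ≤ N - 1, IsWeil q (cc ρ s j) := by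
      intro j hj
      refine w3 ((Multiset.range (j + 1)).map π) (N - 1 - j) s _ (fun c hc => ?_) hs ?_ ?_
      · rw [Multiset.mem_map] at hc
        obtain ⟨i, _, rfl⟩ := hc
        exact hπW i
      · simp
      · have : Multiset.card ((Multiset.range (j + 1)).map π) + (N - 1 - j) = N := by
          rw [Multiset.card_map, Multiset.card_range]; omega
        have e0 : ((Multiset.range (j + 1)).map π).prod = ∏ i ∈ Finset.range (j + 1), π i := rfl
        rw [this, e0]
        unfold cc
        rw [div_pow, ← Finset.prod_pow, Finset.prod_congr rfl (fun i _ => hρ i),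
          Finset.prod_mul_distrib, Finset.prod_const, Finset.card_range, ← pow_mul, ← pow_mul]
        have e : (N - 1) * (j + 1) = (N - 1 - j) + j * N := by
          obtain ⟨d, hd⟩ := Nat.exists_eq_add_of_le hj
          have hN2 : N = j + d + 1 := by omega
          rw [hd, hN2]
          have : j + d - j = d := by omega
          rw [this]; ring
        rw [e, pow_add]
        have := pow_ne_zero (j * N) hs0
        field_simp
    have hA := lemA h hss hs0 hne ρ hρW (N - 1) hW
    have e1 : (q : Ω) / cc ρ s (N - 1) = s := by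
      unfold cc
      rw [hN1, hρprod, ← hsN]
      have e2 : s ^ N = s * s ^ (N - 1) := by conv_lhs => rw [← hN1, pow_succ']
      rw [e2, mul_div_assoc, div_self (pow_ne_zero _ hs0), mul_one, ← hss]
      field_simp
    rw [e1, hN1] at hA
    apply rem_even h hsW hss r
    have e3 : (Multiset.range N).map ρ + replicate (2 * r) s =
        (Multiset.range N).map ρ + {s} + replicate (N - 1) s := by
      rw [← hN]
      conv_lhs => rw [← hN1]
      rw [hN1, ← Multiset.nsmul_singleton s N]
      conv_lhs => rw [← hN1, add_nsmul, one_nsmul, hN1]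
      rw [Multiset.nsmul_singleton]
      abel
    rw [e3]
    exact hA
  have hiiN : ∀ k : ℕ, T (k • (Multiset.range N).map ρ) := by
    intro k
    induction k with
    | zero => rw [zero_nsmul]; exact hT0
    | succ k ih => rw [succ_nsmul]; exact hTadd _ _ ih hii
  -- (iii)
  have hiii : ∀ (I : Multiset ℕ) (M : Multiset Ω), T (M + N • I.map ρ) →
      T (M + I.map π + replicate (I.card * (N - 1)) s) := by
    intro I
    induction I using Multiset.induction_on with
    | empty => intro M h1; simpa using h1
    | cons a I ih =>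
      intro M h1
      have h2 : T (M + replicate N (ρ a) + N • I.map ρ) := by
        rw [Multiset.map_cons, ← singleton_add (ρ a), nsmul_add, Multiset.nsmul_singleton] at h1
        rw [add_assoc]; exact h1
      have h3 := hTadd _ _ (ih _ h2) (hi a)
      have n1 := hne _ (hρW a)
      apply rem_rep h (hρW a) (show ρ a * ((q : Ω) / ρ a) = q by field_simp) N
      have e : M + (a ::ₘ I).map π + replicate ((a ::ₘ I).card * (N - 1)) s +
          replicate N (ρ a) + replicate N ((q : Ω) / ρ a) =
          M + replicate N (ρ a) + I.map π + replicate (I.card * (N - 1)) s +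
            (replicate N ((q : Ω) / ρ a) + {π a} + replicate (N - 1) s) := by
        rw [Multiset.map_cons, ← singleton_add (π a), Multiset.card_cons, add_mul, one_mul,
          replicate_add]
        abel
      rw [e]
      exact h3
  have hfin := hiii (Multiset.range N) 0 (by rw [zero_add]; exact hiiN N)
  rw [zero_add, ← hπ, Multiset.card_range] at hfin
  apply rem_even h hsW hss (r * (N - 1))
  have e : 2 * (r * (N - 1)) = N * (N - 1) := by rw [← mul_assoc]
  rw [e]
  exact hfin

end Pool.Agent.NH33.CT
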