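import Pool.Agent.NH33.CT.Stm

/-!
# All families of Weil numbers can be built from families of two and four numbers
-/

set_option autoImplicit false

namespace Pool.Agent.NH33.CT

namespace ChainAux

variable {Ω : Type} [Field Ω]

/-- `D` may be left out -/
def Rm (T : Multiset Ω → Prop) (D : Multiset Ω) : Prop := ∀ m, T (m + D) → T m

omit [Field Ω] in
theorem rm_zero (T : Multiset Ω → Prop) : Rm T 0 := fun m h => by simpa using h

omit [Field Ω] in
theorem rm_add {T : Multiset Ω → Prop} {D E : Multiset Ω} (hD : Rm T D) (hE : Rm T E) :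
    Rm T (D + E) := fun m h => hD m (hE _ (by rwa [← add_assoc] at h))

omit [Field Ω] in
theorem rm_sum {T : Multiset Ω → Prop} (s : Finset ℕ) (f : ℕ → Multiset Ω)
    (h : ∀ i ∈ s, Rm T (f i)) : Rm T (∑ i ∈ s, f i) := by
  classical
  induction s using Finset.induction_on with
  | empty => simpa using rm_zero T
  | insert a s ha ih =>
    rw [Finset.sum_insert ha]
    exact rm_add (h a (Finset.mem_insert_self a s)) (ih fun i hi => h i (Finset.mem_insert_of_mem hi))

omit [Field Ω] in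
theorem rm_nsmul {T : Multiset Ω → Prop} (n : ℕ) {D : Multiset Ω} (h : Rm T D) : Rm T (n • D) := by
  induction n with
  | zero => simpa using rm_zero T
  | succ n ih => rw [succ_nsmul]; exact rm_add ih h

omit [Field Ω] in
theorem t_sum {T : Multiset Ω → Prop} (h0 : T 0) (hadd : ∀ m m', T m → T m' → T (m + m'))
    (s : Finset ℕ) (f : ℕ → Multiset Ω) (h : ∀ i ∈ s, T (f i)) : T (∑ i ∈ s, f i) := by
  classical
  induction s using Finset.induction_on with
  | empty => simpa using h0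
  | insert a s ha ih =>
    rw [Finset.sum_insert ha]
    exact hadd _ _ (h a (Finset.mem_insert_self a s))
      (ih fun i hi => h i (Finset.mem_insert_of_mem hi))

omit [Field Ω] in
theorem t_nsmul {T : Multiset Ω → Prop} (h0 : T 0) (hadd : ∀ m m', T m → T m' → T (m + m'))
    (n : ℕ) {D : Multiset Ω} (h : T D) : T (n • D) := by
  induction n with
  | zero => simpa using h0
  | succ n ih => rw [succ_nsmul]; exact hadd _ _ ih h

theorem exists_fun (m : Multiset Ω) : ∃ π : ℕ → Ω, m = ∑ i ∈ Finset.range m.card, {π i} := by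
  induction m using Multiset.induction_on with
  | empty => exact ⟨fun _ => 0, by simp⟩
  | cons a m ih =>
    obtain ⟨π, hπ⟩ := ih
    refine ⟨fun i => if i = m.card then a else π i, ?_⟩
    rw [Multiset.card_cons, Finset.sum_range_succ]
    have h1 : ∑ i ∈ Finset.range m.card, ({if i = m.card then a else π i} : Multiset Ω)
        = ∑ i ∈ Finset.range m.card, {π i} := by
      refine Finset.sum_congr rfl fun i hi => ?_
      rw [if_neg (Finset.mem_range.mp hi).ne]
    rw [h1, ← hπ, ← Multiset.singleton_add, add_comm]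
    simp

theorem lemA {q : ℕ} {s : Ω} (hs : s ^ 2 = (q : Ω)) {T : Multiset Ω → Prop}
    (hadd : ∀ m m', T m → T m' → T (m + m'))
    (h2 : ∀ a b : Ω, a * b = q → T {a, b})
    (h4 : ∀ a b c d : Ω, d ^ 2 = q → a * b * c * d = q ^ 2 → T {a, b, c, d})
    (hrem : ∀ (m : Multiset Ω) (a b : Ω), IsWeil q a → a * b = q → T (m + {a, b}) → T m)
    (ρ C : ℕ → Ω) (hC0 : C 0 = ρ 0) (hC : ∀ j, C (j + 1) * s = C j * ρ (j + 1))
    (hnz : ∀ c : Ω, IsWeil q c → c ≠ 0) (k : ℕ) (hW : ∀ j ≤ k, IsWeil q (C j)) :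
    T ((∑ i ∈ Finset.range (k + 1), {ρ i}) + {(q : Ω) / C k} + k • {s}) := by
  induction k with
  | zero =>
    have h := hnz _ (hW 0 le_rfl)
    have h' := h2 (C 0) ((q : Ω) / C 0) (by field_simp)
    rw [Multiset.insert_eq_cons, ← Multiset.singleton_add, hC0] at h'
    simpa [hC0] using h'
  | succ k ih =>
    have ih' := ih fun j hj => hW j (by omega)
    have hk := hnz _ (hW k (by omega))
    have hk1 := hnz _ (hW (k + 1) le_rfl)
    have h' := h4 (C k) (ρ (k + 1)) ((q : Ω) / C (k + 1)) s hs (by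
      rw [← hC k]
      have : C (k + 1) * s * (↑q / C (k + 1)) * s = (q : Ω) * s ^ 2 := by
        field_simp
      rw [this, hs]; ring)
    refine hrem _ (C k) ((q : Ω) / C k) (hW k (by omega)) (by field_simp) ?_
    have h3 := hadd _ _ ih' h'
    have h5 : (∑ i ∈ Finset.range (k + 1), ({ρ i} : Multiset Ω)) + {(q : Ω) / C k} + k • {s}
        + {C k, ρ (k + 1), (q : Ω) / C (k + 1), s}
        = (∑ i ∈ Finset.range (k + 1 + 1), ({ρ i} : Multiset Ω)) + {(q : Ω) / C (k + 1)}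
          + (k + 1) • {s} + {C k, (q : Ω) / C k} := by
      rw [Finset.sum_range_succ _ (k + 1), succ_nsmul]
      simp only [Multiset.insert_eq_cons, ← Multiset.singleton_add]
      abel
    rwa [h5] at h3

theorem lemA2 {q : ℕ} {s : Ω} (hs : s ^ 2 = (q : Ω)) (hs0 : s ≠ 0) {T : Multiset Ω → Prop}
    (hadd : ∀ m m', T m → T m' → T (m + m'))
    (h2 : ∀ a b : Ω, a * b = q → T {a, b})
    (h4 : ∀ a b c d : Ω, d ^ 2 = q → a * b * c * d = q ^ 2 → T {a, b, c, d})
    (hrem : ∀ (m : Multiset Ω) (a b : Ω), IsWeil q a → a * b = q → T (m + {a, b}) → T m)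
    (hnz : ∀ c : Ω, IsWeil q c → c ≠ 0)
    (w3 : ∀ (m : Multiset Ω) (M : ℕ) (s x : Ω), (∀ c ∈ m, IsWeil q c) → s ^ 2 = q →
      0 < m.card + M → x ^ (m.card + M) = m.prod * s ^ M → IsWeil q x)
    (k : ℕ) (ϖ σ : ℕ → Ω) (hϖ : ∀ i < k + 1, IsWeil q (ϖ i))
    (hσ : ∀ i < k + 1, σ i ^ (k + 1) = ϖ i * s ^ k) :
    T ((∑ i ∈ Finset.range (k + 1), {σ i})
      + {(q : Ω) / ((∏ i ∈ Finset.range (k + 1), σ i) / s ^ k)} + k • {s}) := by
  refine lemA hs hadd h2 h4 hrem σ (fun j => (∏ i ∈ Finset.range (j + 1), σ i) / s ^ j)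
    (by simp) (fun j => ?_) hnz k (fun j hj => ?_)
  · show (∏ i ∈ Finset.range (j + 1 + 1), σ i) / s ^ (j + 1) * s
      = (∏ i ∈ Finset.range (j + 1), σ i) / s ^ j * σ (j + 1)
    rw [Finset.prod_range_succ _ (j + 1), pow_succ]
    field_simp
  · have hcard : (∑ i ∈ Finset.range (j + 1), ({ϖ i} : Multiset Ω)).card = j + 1 := by
      simp [Multiset.card_sum]
    have hprod : (∑ i ∈ Finset.range (j + 1), ({ϖ i} : Multiset Ω)).prod
        = ∏ i ∈ Finset.range (j + 1), ϖ i := by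
      simp [Multiset.prod_sum]
    refine w3 (∑ i ∈ Finset.range (j + 1), {ϖ i}) (k - j) s _ (fun c hc => ?_) hs
      (by rw [hcard]; omega) ?_
    · rw [Multiset.mem_sum] at hc
      obtain ⟨i, hi, hc⟩ := hc
      rw [Multiset.mem_singleton] at hc
      rw [hc]
      exact hϖ i (by have := Finset.mem_range.mp hi; omega)
    · rw [hcard, hprod]
      have e1 : j + 1 + (k - j) = k + 1 := by omega
      rw [e1, div_pow, ← Finset.prod_pow]
      have e2 : ∏ i ∈ Finset.range (j + 1), σ i ^ (k + 1)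
          = (∏ i ∈ Finset.range (j + 1), ϖ i) * (s ^ k) ^ (j + 1) := by
        rw [Finset.prod_congr rfl fun i hi => hσ i (by have := Finset.mem_range.mp hi; omega),
          Finset.prod_mul_distrib, Finset.prod_const, Finset.card_range]
      rw [e2, div_eq_iff (pow_ne_zero _ (pow_ne_zero _ hs0)), mul_assoc]
      congr 1
      rw [← pow_mul, ← pow_mul, ← pow_add]
      congr 1
      obtain ⟨t, rfl⟩ := Nat.exists_eq_add_of_le hj
      rw [Nat.add_sub_cancel_left]
      ring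

end ChainAux

open ChainAux in
/-- The stronger form, in which only the families of four numbers which contain a square root of `q`
are used. -/
theorem t_CHAIN' (hWN : S_WN) (Ω : Type) [Field Ω] [IsAlgClosed Ω] [CharZero Ω] (q : ℕ) (hq : 0 < q)
    (T : Multiset Ω → Prop) (h0 : T 0) (hadd : ∀ m m', T m → T m' → T (m + m'))
    (h2 : ∀ a b : Ω, a * b = q → T {a, b})
    (h4 : ∀ a b c d : Ω, d ^ 2 = q → a * b * c * d = q ^ 2 → T {a, b, c, d})
    (hrem : ∀ (m : Multiset Ω) (a b : Ω), IsWeil q a → a * b = q → T (m + {a, b}) → T m)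
    (m : Multiset Ω) (r : ℕ) (hm : ∀ c ∈ m, IsWeil q c) (hcard : m.card = 2 * r)
    (hprod : m.prod = q ^ r) : T m := by
  obtain ⟨w1, w2, w3⟩ := hWN Ω q hq
  have hq0 : (q : Ω) ≠ 0 := by exact_mod_cast hq.ne'
  rcases Nat.eq_zero_or_pos r with hr | hr
  · subst hr
    have : m = 0 := Multiset.card_eq_zero.mp (by omega)
    rw [this]; exact h0
  obtain ⟨s, hs⟩ := IsAlgClosed.exists_pow_nat_eq (q : Ω) (n := 2) (by norm_num)
  have hs0 : s ≠ 0 := by
    rintro rfl
    apply hq0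
    rw [← hs]; simp
  have hsW := w2 s hs
  have hnz : ∀ c : Ω, IsWeil q c → c ≠ 0 := fun c hc => (w1 c hc).1
  obtain ⟨π, hπ⟩ := exists_fun m
  obtain ⟨k, hk⟩ : ∃ k, 2 * r = k + 1 := ⟨2 * r - 1, by omega⟩
  rw [hcard, hk] at hπ
  have hπW : ∀ i < k + 1, IsWeil q (π i) := fun i hi => hm _ (by
    rw [hπ, Multiset.mem_sum]
    exact ⟨i, Finset.mem_range.mpr hi, Multiset.mem_singleton_self _⟩)
  have hπprod : ∏ i ∈ Finset.range (k + 1), π i = (q : Ω) ^ r := by
    rw [← hprod, hπ]; simp [Multiset.prod_sum]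
  have hex : ∀ i, ∃ x : Ω, x ^ (k + 1) = π i * s ^ k := fun i =>
    IsAlgClosed.exists_pow_nat_eq _ (Nat.succ_pos k)
  choose ρ' hρ' using hex
  have hρ'0 : ∀ i < k + 1, ρ' i ≠ 0 := by
    intro i hi h
    have := hρ' i
    rw [h, zero_pow (Nat.succ_ne_zero k)] at this
    exact mul_ne_zero (hnz _ (hπW i hi)) (pow_ne_zero _ hs0) this.symm
  obtain ⟨ζ, hζdef⟩ : ∃ ζ : Ω, ζ = (∏ i ∈ Finset.range (k + 1), ρ' i) / (q : Ω) ^ r := ⟨_, rfl⟩
  have hqr0 : (q : Ω) ^ r ≠ 0 := pow_ne_zero _ hq0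
  have hprod0 : ∏ i ∈ Finset.range (k + 1), ρ' i ≠ 0 :=
    Finset.prod_ne_zero_iff.mpr fun i hi => hρ'0 i (Finset.mem_range.mp hi)
  have hζ0 : ζ ≠ 0 := by rw [hζdef]; exact div_ne_zero hprod0 hqr0
  have hsq : (s ^ k) ^ (k + 1) = ((q : Ω) ^ r) ^ k := by
    rw [← pow_mul, mul_comm k (k + 1), ← hk, pow_mul, pow_mul, hs]
  have hζ : ζ ^ (k + 1) = 1 := by
    rw [hζdef, div_pow, ← Finset.prod_pow, Finset.prod_congr rfl fun i _ => hρ' i,
      Finset.prod_mul_distrib, hπprod, Finset.prod_const, Finset.card_range,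
      div_eq_one_iff_eq (pow_ne_zero _ hqr0), hsq, pow_succ]
    ring
  -- the corrected roots
  obtain ⟨ρ, hρdef⟩ : ∃ ρ : ℕ → Ω, ρ = fun i => ρ' i * (if i = 0 then ζ⁻¹ else 1) := ⟨_, rfl⟩
  have hρ : ∀ i, ρ i ^ (k + 1) = π i * s ^ k := by
    intro i
    rw [hρdef]
    simp only
    rw [mul_pow, hρ' i]
    split_ifs with h
    · rw [inv_pow, hζ]; simp
    · simp
  have hρprod : ∏ i ∈ Finset.range (k + 1), ρ i = (q : Ω) ^ r := by
    rw [hρdef, Finset.prod_mul_distrib, Finset.prod_ite_eq' (Finset.range (k + 1)) 0 (fun _ => ζ⁻¹),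
      if_pos (Finset.mem_range.mpr (Nat.succ_pos k)), hζdef, inv_div]
    field_simp
  have hρW : ∀ i < k + 1, IsWeil q (ρ i) := by
    intro i hi
    refine w3 {π i} k s (ρ i) (fun c hc => ?_) hs (by simp) ?_
    · rw [Multiset.mem_singleton.mp hc]; exact hπW i hi
    · rw [Multiset.card_singleton, Multiset.prod_singleton, add_comm, hρ i]
  have hρ0 : ∀ i < k + 1, ρ i ≠ 0 := fun i hi => hnz _ (hρW i hi)
  have hN0 : s ^ k ≠ 0 := pow_ne_zero _ hs0
  -- (i)
  have hi : ∀ i ∈ Finset.range (k + 1), T ((k + 1) • {(q : Ω) / ρ i} + {π i} + k • {s}) := by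
    intro i hi
    rw [Finset.mem_range] at hi
    have h0π := hnz _ (hπW i hi)
    have e1 : ((q : Ω) / ρ i) ^ (k + 1) = (q : Ω) / π i * s ^ k := by
      rw [div_pow, hρ i, div_eq_iff (mul_ne_zero h0π hN0)]
      have : (q : Ω) / π i * s ^ k * (π i * s ^ k) = (q : Ω) * (s ^ k * s ^ k) := by
        field_simp
      rw [this, ← mul_pow, ← pow_two, hs, pow_succ]
      ring
    have h := lemA2 hs hs0 hadd h2 h4 hrem hnz w3 k (fun _ => (q : Ω) / π i)
      (fun _ => (q : Ω) / ρ i) (fun j _ => (w1 _ (hπW i hi)).2) (fun j _ => e1)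
    rw [Finset.sum_const, Finset.card_range, Finset.prod_const, Finset.card_range, e1,
      mul_div_assoc, div_self hN0, mul_one] at h
    have e2 : (q : Ω) / ((q : Ω) / π i) = π i := by field_simp
    rwa [e2] at h
  -- (ii)
  have hii : T ((∑ i ∈ Finset.range (k + 1), {ρ i}) + {s} + k • {s}) := by
    have h := lemA2 hs hs0 hadd h2 h4 hrem hnz w3 k π ρ hπW (fun j _ => hρ j)
    rw [hρprod] at h
    have e2 : (q : Ω) / ((q : Ω) ^ r / s ^ k) = s := by
      have e3 : (q : Ω) ^ r = s ^ k * s := by rw [← pow_succ, ← hk, pow_mul, hs]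
      rw [e3, mul_comm (s ^ k) s, mul_div_assoc, div_self hN0, mul_one, ← hs, pow_two]
      field_simp
    rwa [e2] at h
  have hiii := hadd _ _ (t_sum h0 hadd _ _ hi) (t_nsmul h0 hadd (k + 1) hii)
  -- the part to be left out
  have hD : Rm T ((k + 1) • (∑ i ∈ Finset.range (k + 1), ({ρ i, (q : Ω) / ρ i} : Multiset Ω))
      + (r * (2 * k + 1)) • ({s, s} : Multiset Ω)) := by
    refine rm_add (rm_nsmul _ (rm_sum _ _ fun i hi m h => ?_)) (rm_nsmul _ fun m h => ?_)
    · rw [Finset.mem_range] at hi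
      have := hρ0 i hi
      exact hrem m (ρ i) ((q : Ω) / ρ i) (hρW i hi) (by field_simp) h
    · exact hrem m s s hsW (by rw [← hs, pow_two]) h
  apply hD
  have e : m + ((k + 1) • (∑ i ∈ Finset.range (k + 1), ({ρ i, (q : Ω) / ρ i} : Multiset Ω))
      + (r * (2 * k + 1)) • ({s, s} : Multiset Ω))
      = ∑ i ∈ Finset.range (k + 1), ((k + 1) • {(q : Ω) / ρ i} + {π i} + k • {s})
        + (k + 1) • ((∑ i ∈ Finset.range (k + 1), {ρ i}) + {s} + k • {s}) := by
    have e1 : ∀ i, ({ρ i, (q : Ω) / ρ i} : Multiset Ω) = {ρ i} + {(q : Ω) / ρ i} := fun i => rfl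
    have e2 : ({s, s} : Multiset Ω) = 2 • {s} := by rw [two_nsmul]; rfl
    simp only [e1, Finset.sum_add_distrib, nsmul_add, ← Finset.smul_sum, Finset.sum_const,
      Finset.card_range, smul_smul]
    rw [e2, smul_smul, ← hπ]
    have e3 : r * (2 * k + 1) * 2 = (k + 1) * k + (k + 1) + (k + 1) * k := by
      have : r * (2 * k + 1) * 2 = (2 * r) * (2 * k + 1) := by ring
      rw [this, hk]; ring
    rw [e3]
    try rw [mul_comm k (k + 1)]
    generalize (k + 1) * k = u
    generalize (∑ i ∈ Finset.range (k + 1), ({ρ i} : Multiset Ω)) = A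
    generalize (∑ i ∈ Finset.range (k + 1), ({(q : Ω) / ρ i} : Multiset Ω)) = B
    have e4 : (u + (k + 1) + u) • ({s} : Multiset Ω) = u • {s} + (k + 1) • {s} + u • {s} := by
      rw [add_nsmul, add_nsmul]
    rw [e4]
    abel
  rwa [e]

end Pool.Agent.NH33.CT
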