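import Pool.Agent.NH33.CT.Stm

/-!
# Tate classes are linear combinations of the forms given by eigenvectors
-/

set_option autoImplicit false

namespace Pool.Agent.NH33.CT

open Polynomial

namespace Dec68

variable {Ω : Type} [Field Ω] {V : Type} [AddCommGroup V] [Module Ω V]

/-- the multilinear expansion -/
lemma expand {I : Type} [Fintype I] (b : Module.Basis I Ω V) {κ : Type} [Fintype κ]
    [DecidableEq κ] (f : V [⋀^κ]→ₗ[Ω] Ω) (v : κ → V) :
    f v = ∑ s : κ → I, (∏ k, b.coord (s k) (v k)) * f (fun k => b (s k)) := by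
  classical
  have h : v = fun k => ∑ i, b.coord i (v k) • b i := by
    funext k
    simp only [Module.Basis.coord_apply]
    exact (b.sum_repr (v k)).symm
  have h2 : f v = f.toMultilinearMap (fun k => ∑ i, b.coord i (v k) • b i) := by
    rw [← h]
    rfl
  rw [h2, MultilinearMap.map_sum]
  refine Finset.sum_congr rfl fun s _ => ?_
  rw [MultilinearMap.map_smul_univ]
  rfl

lemma sum_apply68 {κ : Type} {J : Type} (S : Finset J) (g : J → V [⋀^κ]→ₗ[Ω] Ω) (v : κ → V) :
    (∑ s ∈ S, g s) v = ∑ s ∈ S, g s v := by
  classical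
  induction S using Finset.induction_on with
  | empty => simp
  | insert a S ha ih => rw [Finset.sum_insert ha, Finset.sum_insert ha, AlternatingMap.add_apply, ih]

/-- antisymmetrized expansion -/
lemma expand2 {I : Type} [Fintype I] (b : Module.Basis I Ω V) {κ : Type} [Fintype κ]
    [DecidableEq κ] (f : V [⋀^κ]→ₗ[Ω] Ω) :
    ((Fintype.card κ).factorial : Ω) • f =
      ∑ s : κ → I, f (fun k => b (s k)) • df (fun k => b.coord (s k)) := by
  classical
  ext v
  rw [AlternatingMap.smul_apply, sum_apply68]
  have h1 : ((Fintype.card κ).factorial : Ω) • f v =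
      ∑ σ : Equiv.Perm κ, ((Equiv.Perm.sign σ : ℤ) : Ω) * f (v ∘ σ) := by
    have h2 : ∀ σ : Equiv.Perm κ, ((Equiv.Perm.sign σ : ℤ) : Ω) * f (v ∘ σ) = f v := by
      intro σ
      rw [AlternatingMap.map_perm]
      rcases Int.units_eq_one_or (Equiv.Perm.sign σ) with h | h <;> rw [h] <;> simp
    rw [Finset.sum_congr rfl fun σ _ => h2 σ, Finset.sum_const, Finset.card_univ,
      Fintype.card_perm, nsmul_eq_mul, smul_eq_mul]
  rw [h1]
  have h3 : ∀ s : κ → I, (f (fun k => b (s k)) • df (fun k => b.coord (s k))) v =
      ∑ σ : Equiv.Perm κ, ((Equiv.Perm.sign σ : ℤ) : Ω) *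
        ((∏ k, b.coord (s k) (v (σ k))) * f (fun k => b (s k))) := by
    intro s
    rw [AlternatingMap.smul_apply, df_apply, Matrix.det_apply', smul_eq_mul, Finset.mul_sum]
    refine Finset.sum_congr rfl fun σ _ => ?_
    simp only [Matrix.of_apply]
    ring
  rw [Finset.sum_congr rfl fun s _ => h3 s, Finset.sum_comm]
  refine Finset.sum_congr rfl fun σ _ => ?_
  rw [expand b f (v ∘ σ), Finset.mul_sum]
  rfl

end Dec68

open Dec68 in
theorem t_DEC : S_DEC := by
  classical
  intro p n _ Ω _ _ X κ _ _ f j hf
  obtain ⟨I, b, c, hb⟩ := X.semisimple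
  haveI : Finite I := Module.Finite.finite_basis b
  haveI : Fintype I := Fintype.ofFinite I
  have hE : ∀ i v, b.coord i (X.F v) = c i * b.coord i v := by
    intro i v
    have h1 : (b.coord i).comp X.F = c i • b.coord i := by
      apply b.ext
      intro k
      simp only [LinearMap.comp_apply, hb, map_smul, LinearMap.smul_apply, smul_eq_mul,
        Module.Basis.coord_apply, Module.Basis.repr_self]
      by_cases h : k = i
      · rw [h]
      · rw [Finsupp.single_eq_of_ne' h]
        simp
    exact LinearMap.congr_fun h1 v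
  have hfac : ((Fintype.card κ).factorial : Ω) ≠ 0 := Nat.cast_ne_zero.mpr (Nat.factorial_ne_zero _)
  have hf2 : f = ((Fintype.card κ).factorial : Ω)⁻¹ •
      ∑ s : κ → I, f (fun k => b (s k)) • df (fun k => b.coord (s k)) := by
    rw [← expand2 b f, smul_smul, inv_mul_cancel₀ hfac, one_smul]
  rw [hf2]
  apply Submodule.smul_mem
  apply Submodule.sum_mem
  intro s _
  by_cases h0 : f (fun k => b (s k)) = 0
  · rw [h0, zero_smul]
    exact Submodule.zero_mem _
  · apply Submodule.smul_mem
    apply Submodule.subset_span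
    refine ⟨fun k => b.coord (s k), fun k => c (s k), fun k v => hE _ _, fun k h => ?_, ?_, rfl⟩
    · have := LinearMap.congr_fun h (b (s k))
      simp at this
    · have h1 := hf.2 (fun k => b (s k))
      have h2 : (fun k => X.F (b (s k))) = fun k => c (s k) • b (s k) := by
        funext k
        exact hb _
      rw [h2] at h1
      have h3 : f (fun k => c (s k) • b (s k)) = (∏ k, c (s k)) * f (fun k => b (s k)) := by
        have := f.toMultilinearMap.map_smul_univ (fun k => c (s k)) (fun k => b (s k))
        exact this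
      rw [h3] at h1
      exact mul_right_cancel₀ h0 h1

end Pool.Agent.NH33.CT
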