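import Mathlib

/-!
# Tate classes on abelian varieties over a finite field: definitions

By theorems of Weil, Tate and Honda, an abelian variety `X` over the field with `q = p ^ n` elements is
determined up to isogeny by the characteristic polynomial `P` of its Frobenius endomorphism `F`, which
acts semisimply on the Tate module, and Honda and Tate describe the polynomials which occur. If `Ω` is
an algebraically closed field which contains `ℚ_ℓ`, `ℓ` not `p`, and `V = V_ℓ(X) ⊗ Ω`, then
`Hom(X, Y) ⊗ Ω` is the space of the linear maps which commute with Frobenius (Tate), and `H^i(X, Ω)` is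
the space of the alternating `i`-forms on `V`.
-/

set_option autoImplicit false

namespace Pool.Agent.NH33.CT

open Polynomial

/-- Abelian varieties over the field with `q = p ^ n` elements (up to isogeny), given by the space
`V = V_ℓ(X) ⊗ Ω` with the Frobenius endomorphism `F`. The theorem of Honda and Tate: `P` is the
characteristic polynomial of the Frobenius endomorphism of an abelian variety if and only if it is a
monic polynomial with integral coefficients, all its complex roots have absolute value `√q` and the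
multiplicities satisfy the conditions `slopes` and `real`. -/
structure AV (p n : ℕ) [Fact p.Prime] (Ω : Type) [Field Ω] where
  V : Type
  [addV : AddCommGroup V]
  [modV : Module Ω V]
  [finV : FiniteDimensional Ω V]
  /-- the Frobenius endomorphism -/
  F : Module.End Ω V
  /-- Frobenius is semisimple -/
  semisimple : ∃ (ι : Type) (b : Module.Basis ι Ω V) (c : ι → Ω), ∀ i, F (b i) = c i • b i
  /-- the characteristic polynomial of Frobenius -/
  P : ℤ[X]
  monic : P.Monic
  charpoly : F.charpoly = P.map (Int.castRingHom Ω)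
  /-- the Riemann hypothesis -/
  weil : ∀ z : ℂ, aeval z P = 0 → ‖z‖ ^ 2 = (p : ℝ) ^ n
  /-- for each irreducible factor `g` of `P` over `ℚ_p`, with multiplicity `m`, the valuation of
  `g(0) ^ m` is divisible by `n` -/
  slopes : ∀ g : ℚ_[p][X], g.Monic → Irreducible g →
    (n : ℤ) ∣ (multiplicity g (P.map (Int.castRingHom ℚ_[p])) : ℤ) * (g.coeff 0).valuation
  /-- real roots have an even multiplicity -/
  real : ∀ x : ℝ, Even ((P.map (Int.castRingHom ℝ)).rootMultiplicity x)

attribute [instance] AV.addV AV.modV AV.finV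

variable {p n : ℕ} [Fact p.Prime] {Ω : Type} [Field Ω]

/-- The elements of `Hom(X, Y) ⊗ Ω`: by a theorem of Tate these are the linear maps which commute with
Frobenius. -/
def IsHom (X Y : AV p n Ω) (h : X.V →ₗ[Ω] Y.V) : Prop := ∀ v, h (X.F v) = Y.F (h v)

/-- `f ∈ H^κ(X)` is a Tate class of codimension `j` -/
def IsTate (X : AV p n Ω) {κ : Type} (f : X.V [⋀^κ]→ₗ[Ω] Ω) (j : ℕ) : Prop :=
  Nat.card κ = 2 * j ∧ ∀ v : κ → X.V, f (fun k => X.F (v k)) = (p : Ω) ^ (n * j) * f v

/-- `h` is the cup product of `f` and `g` (up to the factor `|κ|! |κ'|!`). -/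
def IsCup {X : AV p n Ω} {κ κ' : Type} [Fintype κ] [DecidableEq κ] [Fintype κ'] [DecidableEq κ']
    (f : X.V [⋀^κ]→ₗ[Ω] Ω) (g : X.V [⋀^κ']→ₗ[Ω] Ω) (h : X.V [⋀^κ ⊕ κ']→ₗ[Ω] Ω) : Prop :=
  ∀ v : κ ⊕ κ' → X.V, h v = ∑ σ : Equiv.Perm (κ ⊕ κ'), ((Equiv.Perm.sign σ : ℤ) : Ω) *
    (f (fun k => v (σ (Sum.inl k))) * g (fun k => v (σ (Sum.inr k))))

/-- `Z` is (isogenous to) the product `X × Y`, with the inclusions `i` and `j`. -/
def IsProd {X Y Z : AV p n Ω} (i : X.V →ₗ[Ω] Z.V) (j : Y.V →ₗ[Ω] Z.V) : Prop :=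
  IsHom X Z i ∧ IsHom Y Z j ∧ Function.Bijective fun w : X.V × Y.V => i w.1 + j w.2

/-- A system of classes `f ∈ H^κ(X)` for all abelian varieties `X` over the field with `p ^ n` elements
(`A X κ f` says that `f` belongs to the system), which contains the classes of degree zero and which is
stable under linear combinations, cup products, pull-backs along homomorphisms and push-forwards along
the projections of products. The linear combinations (with coefficients in `Ω`) of the classes of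
algebraic cycles are such a system. -/
structure Sys (p n : ℕ) [Fact p.Prime] (Ω : Type) [Field Ω] where
  /-- the classes of the system -/
  A : (X : AV p n Ω) → (κ : Type) → (X.V [⋀^κ]→ₗ[Ω] Ω) → Prop
  /-- classes of degree zero -/
  unit : ∀ {X : AV p n Ω} {κ : Type} [IsEmpty κ] (f : X.V [⋀^κ]→ₗ[Ω] Ω), A X κ f
  zero : ∀ (X : AV p n Ω) (κ : Type), A X κ 0
  add : ∀ {X : AV p n Ω} {κ : Type} (f g : X.V [⋀^κ]→ₗ[Ω] Ω), A X κ f → A X κ g → A X κ (f + g)
  smul : ∀ {X : AV p n Ω} {κ : Type} (a : Ω) (f : X.V [⋀^κ]→ₗ[Ω] Ω), A X κ f → A X κ (a • f)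
  /-- renaming of the variables -/
  reindex : ∀ {X : AV p n Ω} {κ κ' : Type} (e : κ ≃ κ') (f : X.V [⋀^κ]→ₗ[Ω] Ω), A X κ f →
    A X κ' (f.domDomCongr e)
  /-- cup products (up to a factor) -/
  cup : ∀ {X : AV p n Ω} {κ κ' : Type} [Fintype κ] [DecidableEq κ] [Fintype κ'] [DecidableEq κ']
    (f : X.V [⋀^κ]→ₗ[Ω] Ω) (g : X.V [⋀^κ']→ₗ[Ω] Ω), A X κ f → A X κ' g →
    ∀ h : X.V [⋀^κ ⊕ κ']→ₗ[Ω] Ω, IsCup f g h → A X (κ ⊕ κ') h
  /-- pull-backs along homomorphisms `X → Y` -/
  pull : ∀ {X Y : AV p n Ω} (h : X.V →ₗ[Ω] Y.V), IsHom X Y h → ∀ {κ : Type}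
    (f : Y.V [⋀^κ]→ₗ[Ω] Ω), A Y κ f → A X κ (f.compLinearMap h)
  /-- push-forwards along the projection `Z = X × Y → X` (up to a factor): `f` is evaluated at a
  basis `b` of the second factor -/
  push : ∀ {X Y Z : AV p n Ω} (i : X.V →ₗ[Ω] Z.V) (j : Y.V →ₗ[Ω] Z.V), IsProd i j →
    ∀ {κ κ' : Type} (b : Module.Basis κ' Ω Y.V) (f : Z.V [⋀^κ ⊕ κ']→ₗ[Ω] Ω), A Z (κ ⊕ κ') f →
    ∀ g : X.V [⋀^κ]→ₗ[Ω] Ω, (∀ v, g v = f (Sum.elim (fun k => i (v k)) fun k => j (b k))) →
    A X κ g

end Pool.Agent.NH33.CT
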