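import Pool.Agent.NH33.CT.Stm

/-!
# EIG: the eigenvalues of Frobenius on functionals are Weil numbers
-/

set_option autoImplicit false

namespace Pool.Agent.NH33.CT

open Polynomial

theorem t_EIG : S_EIG := by
  intro p n _ Ω _ X l c hl hc
  have h1 : ¬ Function.Surjective (X.F - algebraMap Ω (Module.End Ω X.V) c) := by
    intro hs
    apply hl
    ext v
    obtain ⟨w, rfl⟩ := hs v
    rw [LinearMap.sub_apply, map_sub, hc, Module.algebraMap_end_apply, map_smul, smul_eq_mul,
      sub_self, LinearMap.zero_apply]
  have h2 : ¬ Function.Injective (X.F - algebraMap Ω (Module.End Ω X.V) c) := fun hi =>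
    h1 (LinearMap.injective_iff_surjective.1 hi)
  have h3 : X.F.HasEigenvalue c := by
    rw [Module.End.hasEigenvalue_iff, Module.End.eigenspace_def]
    intro h
    exact h2 (LinearMap.ker_eq_bot.1 h)
  have h4 : aeval c X.P = 0 := by
    have h5 := (Module.End.hasEigenvalue_iff_isRoot_charpoly X.F c).1 h3
    rw [X.charpoly, IsRoot.def, eval_map] at h5
    rw [aeval_def, eval₂_eq_sum_range]
    rw [eval₂_eq_sum_range] at h5
    simpa using h5
  refine ⟨X.P, X.monic, h4, fun z hz => ?_⟩
  rw [X.weil z hz]
  push_cast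
  rfl

end Pool.Agent.NH33.CT
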