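import Pool.Agent.NH33.CT.Stm

/-!
# EX: there is an abelian variety with a given Weil number
-/

set_option autoImplicit false

namespace Pool.Agent.NH33.CT

open Polynomial

namespace Ex

/-- `X ^ d Q (q / X)` -/
noncomputable def S (q : ℕ) (Q : ℤ[X]) : ℤ[X] :=
  ∑ k ∈ Finset.range (Q.natDegree + 1), C (Q.coeff k * (q : ℤ) ^ k) * X ^ (Q.natDegree - k)

theorem eval_S {F : Type} [Field F] (q : ℕ) (Q : ℤ[X]) (x : F) (hx : x ≠ 0) :
    ((S q Q).map (Int.castRingHom F)).eval x =
      x ^ Q.natDegree * (Q.map (Int.castRingHom F)).eval ((q : F) / x) := by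
  unfold S
  rw [Polynomial.map_sum, eval_finsetSum, eval_map, eval₂_eq_sum_range, Finset.mul_sum]
  refine Finset.sum_congr rfl fun k hk => ?_
  have hk' : k ≤ Q.natDegree := Nat.lt_succ_iff.1 (Finset.mem_range.1 hk)
  obtain ⟨t, ht⟩ := Nat.exists_eq_add_of_le hk'
  rw [ht, Nat.add_sub_cancel_left, Polynomial.map_mul, map_C, Polynomial.map_pow, map_X, eval_mul,
    eval_C, eval_pow, eval_X, map_mul, map_pow, map_natCast, div_pow, pow_add]
  field_simp

/-- the product over the roots `q / c` -/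
noncomputable def T {F : Type} [Field F] (q : ℕ) (R : Multiset F) : F[X] :=
  (R.map fun c => X - C ((q : F) / c)).prod

theorem eval_T {F : Type} [Field F] (q : ℕ) (R : Multiset F) (hR : ∀ c ∈ R, c ≠ 0) (x : F)
    (hx : x ≠ 0) :
    (T q R).eval x * (R.map fun c => (0 : F) - c).prod =
      x ^ R.card * (R.map fun c => (q : F) / x - c).prod := by
  unfold T
  induction R using Multiset.induction_on with
  | empty => simp
  | cons a R ih =>
    have h1 := ih fun c hc => hR c (Multiset.mem_cons_of_mem hc)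
    have ha := hR a (Multiset.mem_cons_self a R)
    simp only [Multiset.map_cons, Multiset.prod_cons, Multiset.card_cons, eval_mul, eval_sub,
      eval_X, eval_C]
    have h2 : (x - (q : F) / a) * (0 - a) = x * ((q : F) / x - a) := by
      field_simp
      ring
    calc (x - (q : F) / a) * eval x (Multiset.map (fun c => X - C ((q : F) / c)) R).prod *
        ((0 - a) * (Multiset.map (fun c => 0 - c) R).prod)
        = ((x - (q : F) / a) * (0 - a)) *
          (eval x (Multiset.map (fun c => X - C ((q : F) / c)) R).prod *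
            (Multiset.map (fun c => 0 - c) R).prod) := by ring
      _ = _ := by
        rw [h1, h2]
        ring

/-- the fundamental relation -/
theorem rel {F : Type} [Field F] [IsAlgClosed F] (q : ℕ) (Q : ℤ[X]) (hQ : Q.Monic)
    (h0 : ((Q.coeff 0 : ℤ) : F) ≠ 0) (x : F) (hx : x ≠ 0) :
    (T q (Q.map (Int.castRingHom F)).roots).eval x * (Q.coeff 0 : ℤ) =
      ((S q Q).map (Int.castRingHom F)).eval x := by
  have hs : (Q.map (Int.castRingHom F)).Splits := IsAlgClosed.splits _
  have hm : (Q.map (Int.castRingHom F)).Monic := hQ.map _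
  have hd : (Q.map (Int.castRingHom F)).roots.card = Q.natDegree := by
    rw [← hs.natDegree_eq_card_roots, hQ.natDegree_map]
  have hc : (Q.map (Int.castRingHom F)).eval 0 = (Q.coeff 0 : ℤ) := by
    rw [← coeff_zero_eq_eval_zero, coeff_map]
    rfl
  have hR : ∀ c ∈ (Q.map (Int.castRingHom F)).roots, c ≠ 0 := by
    rintro c hc' rfl
    rw [mem_roots hm.ne_zero, IsRoot.def, hc] at hc'
    exact h0 hc'
  rw [eval_S q Q x hx, ← hc, hs.eval_eq_prod_roots_of_monic hm, hs.eval_eq_prod_roots_of_monic hm,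
    ← hd]
  exact eval_T q _ hR x hx

theorem T_complex (q : ℕ) (Q : ℤ[X]) (hQ : Q.Monic)
    (hw : ∀ z : ℂ, aeval z Q = 0 → ‖z‖ ^ 2 = (q : ℝ)) :
    T q (Q.map (Int.castRingHom ℂ)).roots = Q.map (Int.castRingHom ℂ) := by
  have hs : (Q.map (Int.castRingHom ℂ)).Splits := IsAlgClosed.splits _
  have hm : (Q.map (Int.castRingHom ℂ)).Monic := hQ.map _
  have h1 : ((Q.map (Int.castRingHom ℂ)).map (starRingEnd ℂ)) = Q.map (Int.castRingHom ℂ) := by
    rw [Polynomial.map_map]
    congr 1
    exact RingHom.ext_int _ _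
  have h2 := hs.roots_map (starRingEnd ℂ)
  rw [h1] at h2
  conv_rhs => rw [hs.eq_prod_roots_of_monic hm, h2, Multiset.map_map]
  unfold T
  congr 1
  refine Multiset.map_congr rfl fun z hz => ?_
  rw [mem_roots hm.ne_zero, IsRoot.def, eval_map] at hz
  have h3 := hw z (by rw [aeval_def]; exact hz)
  simp only [Function.comp]
  congr 2
  by_cases hz0 : z = 0
  · rw [hz0]
    simp
  · have h4 : z * (starRingEnd ℂ) z = (q : ℂ) := by
      rw [Complex.mul_conj, Complex.normSq_eq_norm_sq, h3]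
      simp
    rw [← h4, mul_div_assoc, mul_div_cancel₀]
    exact hz0

theorem S_eq (q : ℕ) (Q : ℤ[X]) (hQ : Q.Monic) (h0 : Q.coeff 0 ≠ 0)
    (hw : ∀ z : ℂ, aeval z Q = 0 → ‖z‖ ^ 2 = (q : ℝ)) : S q Q = C (Q.coeff 0) * Q := by
  apply Polynomial.map_injective (Int.castRingHom ℂ) Int.cast_injective
  have h1 : ((S q Q).map (Int.castRingHom ℂ) - (C (Q.coeff 0) * Q).map (Int.castRingHom ℂ)) = 0 := by
    apply Polynomial.eq_zero_of_infinite_isRoot
    refine Set.Infinite.mono (s := {x : ℂ | x ≠ 0}) (fun x hx => ?_) ?_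
    · have h2 := rel (F := ℂ) q Q hQ (by exact_mod_cast h0) x hx
      rw [T_complex q Q hQ hw] at h2
      show eval x _ = 0
      rw [eval_sub, ← h2, Polynomial.map_mul, map_C, eval_mul, eval_C]
      simp only [eq_intCast]
      ring
    · have : {x : ℂ | x ≠ 0} = {0}ᶜ := rfl
      rw [this]
      exact (Set.finite_singleton (0 : ℂ)).infinite_compl
  exact sub_eq_zero.1 h1

theorem T_eq {F : Type} [Field F] [IsAlgClosed F] [CharZero F] (q : ℕ) (Q : ℤ[X]) (hQ : Q.Monic)
    (h0 : Q.coeff 0 ≠ 0) (hw : ∀ z : ℂ, aeval z Q = 0 → ‖z‖ ^ 2 = (q : ℝ)) :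
    T q (Q.map (Int.castRingHom F)).roots = Q.map (Int.castRingHom F) := by
  have h0' : ((Q.coeff 0 : ℤ) : F) ≠ 0 := by exact_mod_cast h0
  have h1 : T q (Q.map (Int.castRingHom F)).roots - Q.map (Int.castRingHom F) = 0 := by
    apply Polynomial.eq_zero_of_infinite_isRoot
    refine Set.Infinite.mono (s := {x : F | x ≠ 0}) (fun x hx => ?_) ?_
    · have h2 := rel (F := F) q Q hQ h0' x hx
      rw [S_eq q Q hQ h0 hw, Polynomial.map_mul, map_C, eval_mul, eval_C] at h2
      simp only [eq_intCast] at h2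
      show eval x _ = 0
      rw [eval_sub, sub_eq_zero]
      exact mul_right_cancel₀ h0' (h2.trans (mul_comm _ _))
    · have : {x : F | x ≠ 0} = {0}ᶜ := rfl
      rw [this]
      exact (Set.finite_singleton (0 : F)).infinite_compl
  exact sub_eq_zero.1 h1

end Ex

open Ex in
theorem t_EX : S_EX := by
  classical
  intro p n hp Ω _ _ _ hn a ha
  obtain ⟨P0, hP0, haP, hw0⟩ := ha
  have hp0 : 0 < p := hp.out.pos
  obtain ⟨Q, hQdef⟩ : ∃ Q : ℤ[X], Q = P0 ^ n := ⟨_, rfl⟩
  have hQ : Q.Monic := hQdef ▸ hP0.pow n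
  have hw : ∀ z : ℂ, aeval z Q = 0 → ‖z‖ ^ 2 = ((p ^ n : ℕ) : ℝ) := by
    intro z hz
    rw [hQdef, map_pow] at hz
    exact hw0 z (pow_eq_zero_iff hn.ne' |>.1 hz)
  have hc0 : Q.coeff 0 ≠ 0 := by
    intro h
    have h1 : aeval (0 : ℂ) Q = 0 := by
      rw [aeval_def, eval₂_eq_eval_map, ← coeff_zero_eq_eval_zero, coeff_map, h, map_zero]
    have h2 := hw 0 h1
    have h3 : (0 : ℝ) < ((p ^ n : ℕ) : ℝ) := by exact_mod_cast pow_pos hp0 n
    rw [norm_zero, zero_pow two_ne_zero] at h2
    rw [← h2] at h3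
    exact lt_irrefl _ h3
  have hs : (Q.map (Int.castRingHom Ω)).Splits := IsAlgClosed.splits _
  have hm : (Q.map (Int.castRingHom Ω)).Monic := hQ.map _
  obtain ⟨R, hR⟩ : ∃ R, R = (Q.map (Int.castRingHom Ω)).roots := ⟨_, rfl⟩
  have hT := T_eq (F := Ω) (p ^ n) Q hQ hc0 hw
  rw [← hR] at hT
  have hRprod : (R.map fun c => X - C c).prod = Q.map (Int.castRingHom Ω) := by
    rw [hR]
    exact (hs.eq_prod_roots_of_monic hm).symm
  have haR : a ∈ R := by
    rw [hR, mem_roots hm.ne_zero, IsRoot.def, eval_map]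
    have : aeval a Q = 0 := by
      rw [hQdef, map_pow, haP, zero_pow hn.ne']
    rwa [aeval_def] at this
  have hR0 : ∀ c ∈ R, c ≠ 0 := by
    rintro c hc rfl
    rw [hR, mem_roots hm.ne_zero, IsRoot.def, ← coeff_zero_eq_eval_zero, coeff_map] at hc
    simp only [eq_intCast, Int.cast_eq_zero] at hc
    exact hc0 hc
  obtain ⟨m, hm2⟩ := Multiset.exists_cons_of_mem haR
  -- the index set
  obtain ⟨M, hM⟩ : ∃ M : Multiset Ω, M = a ::ₘ ((p : Ω) ^ n / a) ::ₘ
    (m + m.map fun c => (p : Ω) ^ n / c) := ⟨_, rfl⟩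
  have hMprod : (M.map fun c => X - C c).prod = (Q * Q).map (Int.castRingHom Ω) := by
    have h1 : M = R + R.map fun c => (p : Ω) ^ n / c := by
      rw [hM, hm2, Multiset.map_cons, Multiset.cons_add, Multiset.add_cons]
    rw [h1, Multiset.map_add, Multiset.prod_add, hRprod, Multiset.map_map, Polynomial.map_mul]
    congr 1
    rw [← hT]
    unfold T
    congr 1
    refine Multiset.map_congr rfl fun c _ => ?_
    simp
  obtain ⟨l, hl⟩ : ∃ l : List Ω, (l : Multiset Ω) = M := ⟨M.toList, M.coe_toList⟩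
  have hle : (Finset.univ : Finset (Fin l.length)).val.map l.get = M := by
    rw [Fin.univ_val_map, List.ofFn_get, hl]
  let F : Module.End Ω (Fin l.length → Ω) := Matrix.toLin' (Matrix.diagonal l.get)
  have hF : ∀ k, F (Pi.basisFun Ω (Fin l.length) k) = l.get k • Pi.basisFun Ω (Fin l.length) k := by
    intro k
    ext i
    simp only [F, Matrix.toLin'_apply, Matrix.mulVec_diagonal, Pi.basisFun_apply, Pi.smul_apply,
      smul_eq_mul, Pi.single_apply]
    split_ifs with h
    · rw [h]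
    · simp
  have hchar : F.charpoly = (Q * Q).map (Int.castRingHom Ω) := by
    rw [← hMprod, ← hle, Multiset.map_map, ← LinearMap.charpoly_toMatrix F (Pi.basisFun Ω _)]
    have h1 : LinearMap.toMatrix (Pi.basisFun Ω (Fin l.length)) (Pi.basisFun Ω (Fin l.length)) F =
        Matrix.diagonal l.get := by
      show LinearMap.toMatrix (Pi.basisFun Ω (Fin l.length)) (Pi.basisFun Ω (Fin l.length))
        (Matrix.toLin' (Matrix.diagonal l.get)) = Matrix.diagonal l.get
      rw [← Matrix.toLin_eq_toLin', LinearMap.toMatrix_toLin]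
    rw [h1, Matrix.charpoly_diagonal]
    rfl
  refine ⟨{ V := Fin l.length → Ω
            F := F
            semisimple := ⟨Fin l.length, Pi.basisFun Ω _, l.get, hF⟩
            P := Q * Q
            monic := hQ.mul hQ
            charpoly := hchar
            weil := ?_
            slopes := ?_
            real := ?_ }, Fin l.length, inferInstance, inferInstance, Pi.basisFun Ω _, l.get, m,
    hF, hle.trans hM, fun c hc => hR0 c (hm2 ▸ Multiset.mem_cons_of_mem hc)⟩
  · intro z hz
    rw [map_mul, mul_self_eq_zero] at hz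
    rw [hw z hz]
    push_cast
    rfl
  · intro g hg hgi
    have h1 : (Q * Q).map (Int.castRingHom ℚ_[p]) = (P0.map (Int.castRingHom ℚ_[p])) ^ (2 * n) := by
      rw [hQdef, ← pow_add, Polynomial.map_pow, two_mul]
    have h2 : FiniteMultiplicity g (P0.map (Int.castRingHom ℚ_[p])) :=
      FiniteMultiplicity.of_prime_left hgi.prime (hP0.map _).ne_zero
    rw [h1, h2.multiplicity_pow hgi.prime]
    push_cast
    exact Dvd.intro_left (2 * ((multiplicity g (P0.map (Int.castRingHom ℚ_[p])) : ℕ) : ℤ) *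
      (g.coeff 0).valuation) (by ring)
  · intro x
    rw [Polynomial.map_mul, rootMultiplicity_mul]
    · exact ⟨_, rfl⟩
    · exact ((hQ.map _).mul (hQ.map _)).ne_zero

end Pool.Agent.NH33.CT
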