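import Pool.Agent.NH33.CT.Stm

/-!
Project CT: products of abelian varieties.
-/

set_option autoImplicit false

namespace Pool.Agent.NH33.CT

open Polynomial

namespace PR

variable {p n : ℕ} [Fact p.Prime] {Ω : Type} [Field Ω]

theorem sem (X Y : AV p n Ω) : ∃ (ι : Type) (b : Module.Basis ι Ω (X.V × Y.V)) (c : ι → Ω),
    ∀ i, (LinearMap.prodMap X.F Y.F) (b i) = c i • b i := by
  obtain ⟨ι, b, c, h⟩ := X.semisimple
  obtain ⟨ι', b', c', h'⟩ := Y.semisimple
  refine ⟨ι ⊕ ι', b.prod b', Sum.elim c c', ?_⟩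
  rintro (i | i)
  · rw [Module.Basis.prod_apply]
    simp [h]
  · rw [Module.Basis.prod_apply]
    simp [h']

theorem slo (X Y : AV p n Ω) (g : ℚ_[p][X]) (hg : g.Monic) (hgi : Irreducible g) :
    (n : ℤ) ∣ (multiplicity g ((X.P * Y.P).map (Int.castRingHom ℚ_[p])) : ℤ) *
      (g.coeff 0).valuation := by
  have h1 : (X.P * Y.P).map (Int.castRingHom ℚ_[p]) =
      X.P.map (Int.castRingHom ℚ_[p]) * Y.P.map (Int.castRingHom ℚ_[p]) := Polynomial.map_mul _
  have h0 : X.P.map (Int.castRingHom ℚ_[p]) * Y.P.map (Int.castRingHom ℚ_[p]) ≠ 0 :=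
    ((X.monic.map _).mul (Y.monic.map _)).ne_zero
  have hdeg : 0 < g.degree := Polynomial.degree_pos_of_irreducible hgi
  rw [h1, multiplicity_mul hgi.prime (Polynomial.finiteMultiplicity_of_degree_pos_of_monic hdeg hg h0)]
  push_cast
  rw [add_mul]
  exact dvd_add (X.slopes g hg hgi) (Y.slopes g hg hgi)

/-- the product -/
noncomputable def prodAV (X Y : AV p n Ω) : AV p n Ω where
  V := X.V × Y.V
  F := LinearMap.prodMap X.F Y.F
  semisimple := sem X Y
  P := X.P * Y.P
  monic := X.monic.mul Y.monic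
  charpoly := by
    rw [LinearMap.charpoly_prodMap, X.charpoly, Y.charpoly, Polynomial.map_mul]
  weil := fun z hz => by
    rw [map_mul] at hz
    rcases mul_eq_zero.1 hz with h | h
    · exact X.weil z h
    · exact Y.weil z h
  slopes := slo X Y
  real := fun x => by
    rw [Polynomial.map_mul, Polynomial.rootMultiplicity_mul
      ((X.monic.map _).mul (Y.monic.map _)).ne_zero]
    exact (X.real x).add (Y.real x)

end PR

/-- products -/
theorem t_PROD : S_PROD := by
  intro p n _ Ω _ X Y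
  refine ⟨PR.prodAV X Y, LinearMap.inl Ω X.V Y.V, LinearMap.inr Ω X.V Y.V, ?_, ?_, ?_⟩
  · intro v
    change ((X.F v, 0) : X.V × Y.V) = (X.F v, Y.F 0)
    rw [map_zero]
  · intro v
    change ((0, Y.F v) : X.V × Y.V) = (X.F 0, Y.F v)
    rw [map_zero]
  · have h : (fun w : X.V × Y.V => LinearMap.inl Ω X.V Y.V w.1 + LinearMap.inr Ω X.V Y.V w.2) =
        id := by
      funext w
      simp
    exact h ▸ Function.bijective_id

end Pool.Agent.NH33.CT
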