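import Pool.Agent.NH33.CT.Stm

/-!
# Tate classes on abelian varieties over a finite field: unions (SUM)
-/

set_option autoImplicit false

namespace Pool.Agent.NH33.CT

namespace SumAux

open Finset

theorem split {κ Ω : Type} [DecidableEq κ] (c : κ → Ω) (m : Multiset Ω) :
    ∀ (m' : Multiset Ω) (T : Finset κ), T.val.map c = m + m' →
      ∃ S ⊆ T, S.val.map c = m ∧ (T \ S).val.map c = m' := by
  induction m using Multiset.induction_on with
  | empty =>
    intro m' T h
    refine ⟨∅, by simp, by simp, ?_⟩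
    simpa using h
  | cons a m ih =>
    intro m' T h
    have ha : a ∈ T.val.map c := by rw [h]; simp
    obtain ⟨k, hk, hka⟩ := Multiset.mem_map.1 ha
    have hk' : k ∈ T := hk
    have hT : T.val = k ::ₘ (T.erase k).val := by
      rw [Finset.erase_val, Multiset.cons_erase hk]
    have h2 : (T.erase k).val.map c = m + m' := by
      rw [hT, Multiset.map_cons, hka, Multiset.cons_add] at h
      exact (Multiset.cons_inj_right a).1 h
    obtain ⟨S, hS, h3, h4⟩ := ih m' (T.erase k) h2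
    have hkS : k ∉ S := fun h => by simpa using hS h
    refine ⟨insert k S, ?_, ?_, ?_⟩
    · intro x hx
      rcases Finset.mem_insert.1 hx with rfl | hx
      · exact hk'
      · exact Finset.mem_of_mem_erase (hS hx)
    · rw [Finset.insert_val_of_notMem hkS, Multiset.map_cons, hka, h3]
    · have h5 : T \ insert k S = T.erase k \ S := by
        ext x
        simp only [Finset.mem_sdiff, Finset.mem_insert, Finset.mem_erase]
        tauto
      rw [h5, h4]

theorem map_subtype {κ Ω : Type} [Fintype κ] (p : κ → Prop) [DecidablePred p]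
    [Fintype {k // p k}] (c : κ → Ω) :
    (Finset.univ : Finset {k // p k}).val.map (fun k => c k.1) =
      (Finset.univ.filter p).val.map c := by
  have h1 : (Finset.univ : Finset {k // p k}).map (Function.Embedding.subtype p) =
      Finset.univ.filter p := by
    ext x
    simp
  rw [← h1, Finset.map_val, Multiset.map_map]
  rfl

section

variable {Ω : Type} [Field Ω] {V : Type} [AddCommGroup V] [Module Ω V]

theorem df_sum {κ : Type} [Fintype κ] [DecidableEq κ] (l : κ → Module.Dual Ω V) (v : κ → V) :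
    df l v = ∑ τ : Equiv.Perm κ, ((Equiv.Perm.sign τ : ℤ) : Ω) * ∏ i, l i (v (τ i)) := by
  rw [df_apply, Matrix.det_apply']
  rfl

theorem key {κ κ' : Type} [Fintype κ] [DecidableEq κ] [Fintype κ'] [DecidableEq κ']
    (l : κ → Module.Dual Ω V) (l' : κ' → Module.Dual Ω V) (v : κ ⊕ κ' → V) :
    ∑ σ : Equiv.Perm (κ ⊕ κ'), ((Equiv.Perm.sign σ : ℤ) : Ω) *
      (df l (fun k => v (σ (Sum.inl k))) * df l' (fun k => v (σ (Sum.inr k)))) =
    ((Fintype.card (Equiv.Perm κ) : Ω) * (Fintype.card (Equiv.Perm κ') : Ω)) *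
      df (Sum.elim l l') v := by
  have h1 : ∀ (τ : Equiv.Perm κ) (τ' : Equiv.Perm κ'),
      ∑ σ : Equiv.Perm (κ ⊕ κ'), ((Equiv.Perm.sign σ : ℤ) : Ω) *
        ((((Equiv.Perm.sign τ : ℤ) : Ω) * ∏ i, l i (v (σ (Sum.inl (τ i))))) *
          (((Equiv.Perm.sign τ' : ℤ) : Ω) * ∏ i, l' i (v (σ (Sum.inr (τ' i)))))) =
      df (Sum.elim l l') v := by
    intro τ τ'
    have h := Equiv.sum_comp (Equiv.mulRight (Equiv.Perm.sumCongr τ τ'))
      (fun σ : Equiv.Perm (κ ⊕ κ') => ((Equiv.Perm.sign σ : ℤ) : Ω) *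
        ∏ i, (Sum.elim l l' i) (v (σ i)))
    rw [df_sum, ← h]
    refine Finset.sum_congr rfl fun σ _ => ?_
    simp only [Equiv.coe_mulRight, Fintype.prod_sum_type, Sum.elim_inl, Sum.elim_inr,
      Equiv.Perm.coe_mul, Function.comp_apply, Equiv.Perm.sumCongr_apply, Sum.map_inl, Sum.map_inr,
      Equiv.Perm.sign_mul, Equiv.Perm.sign_sumCongr]
    push_cast
    ring
  have h2 : ∀ σ : Equiv.Perm (κ ⊕ κ'), ((Equiv.Perm.sign σ : ℤ) : Ω) *
      (df l (fun k => v (σ (Sum.inl k))) * df l' (fun k => v (σ (Sum.inr k)))) =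
      ∑ τ : Equiv.Perm κ, ∑ τ' : Equiv.Perm κ', ((Equiv.Perm.sign σ : ℤ) : Ω) *
        ((((Equiv.Perm.sign τ : ℤ) : Ω) * ∏ i, l i (v (σ (Sum.inl (τ i))))) *
          (((Equiv.Perm.sign τ' : ℤ) : Ω) * ∏ i, l' i (v (σ (Sum.inr (τ' i)))))) := by
    intro σ
    rw [df_sum, df_sum, Finset.sum_mul_sum, Finset.mul_sum]
    refine Finset.sum_congr rfl fun τ _ => ?_
    rw [Finset.mul_sum]
  simp_rw [h2]
  rw [Finset.sum_comm]
  have h3 : ∀ τ : Equiv.Perm κ, ∑ σ : Equiv.Perm (κ ⊕ κ'), ∑ τ' : Equiv.Perm κ',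
      ((Equiv.Perm.sign σ : ℤ) : Ω) *
        ((((Equiv.Perm.sign τ : ℤ) : Ω) * ∏ i, l i (v (σ (Sum.inl (τ i))))) *
          (((Equiv.Perm.sign τ' : ℤ) : Ω) * ∏ i, l' i (v (σ (Sum.inr (τ' i)))))) =
      (Fintype.card (Equiv.Perm κ') : Ω) * df (Sum.elim l l') v := by
    intro τ
    rw [Finset.sum_comm]
    rw [Finset.sum_congr rfl fun τ' _ => h1 τ τ']
    rw [Finset.sum_const, Finset.card_univ, nsmul_eq_mul]
  rw [Finset.sum_congr rfl fun τ _ => h3 τ]
  rw [Finset.sum_const, Finset.card_univ, nsmul_eq_mul, mul_assoc]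

theorem df_reindex {κ κ' : Type} [Fintype κ] [DecidableEq κ] [Fintype κ'] [DecidableEq κ']
    (e : κ ≃ κ') (l : κ' → Module.Dual Ω V) :
    (df (l ∘ e)).domDomCongr e = df l := by
  ext v
  rw [AlternatingMap.domDomCongr_apply, df_apply, df_apply]
  have : (Matrix.of fun j i => (l ∘ e) i ((v ∘ e) j)) =
      (Matrix.of fun j i => l i (v j)).submatrix e e := by
    ext i j
    rfl
  rw [this, Matrix.det_submatrix_equiv_self]

end

end SumAux

open SumAux in
/-- **SUM** -/
theorem t_SUM : S_SUM := by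
  intro p n _ Ω _ _ 𝒜 m m' hm hm' X κ _ _ l c hE hc
  obtain ⟨S, -, h1, h2⟩ := split c m m' Finset.univ hc
  have h1' : (Finset.univ : Finset {k // k ∈ S}).val.map (fun k => c k.1) = m := by
    rw [map_subtype (fun k => k ∈ S) c, ← h1]
    congr 2
    ext x
    simp
  have h2' : (Finset.univ : Finset {k // k ∉ S}).val.map (fun k => c k.1) = m' := by
    rw [map_subtype (fun k => k ∉ S) c, ← h2]
    congr 2
    ext x
    simp
  have a1 := hm X {k // k ∈ S} (fun k => l k.1) (fun k => c k.1) (fun k v => hE k.1 v) h1'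
  have a2 := hm' X {k // k ∉ S} (fun k => l k.1) (fun k => c k.1) (fun k v => hE k.1 v) h2'
  set e : {k // k ∈ S} ⊕ {k // k ∉ S} ≃ κ := Equiv.sumCompl (fun k => k ∈ S) with he
  set N : Ω := (Fintype.card (Equiv.Perm {k // k ∈ S}) : Ω) *
    (Fintype.card (Equiv.Perm {k // k ∉ S}) : Ω) with hN
  have hN0 : N ≠ 0 := by
    refine mul_ne_zero ?_ ?_
    · exact Nat.cast_ne_zero.2 Fintype.card_ne_zero
    · exact Nat.cast_ne_zero.2 Fintype.card_ne_zero
  have a3 := 𝒜.cup _ _ a1 a2 (N • df (Sum.elim (fun k : {k // k ∈ S} => l k.1)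
    (fun k : {k // k ∉ S} => l k.1))) (by
      intro v
      rw [key]
      rfl)
  have a4 := 𝒜.smul N⁻¹ _ a3
  rw [smul_smul, inv_mul_cancel₀ hN0, one_smul] at a4
  have a5 := 𝒜.reindex e _ a4
  have h6 : Sum.elim (fun k : {k // k ∈ S} => l k.1) (fun k : {k // k ∉ S} => l k.1) = l ∘ e := by
    funext x
    rcases x with x | x <;> rfl
  rw [h6, df_reindex] at a5
  exact a5

end Pool.Agent.NH33.CT
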