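import Pool.Agent.NH33.CT.Stm

/-! Part WN of project CT: Weil numbers. -/

set_option autoImplicit false

namespace Pool.Agent.NH33.CT.WnAux

open Polynomial

variable {Ω : Type} [Field Ω] [CharZero Ω]

instance algL : Algebra.IsAlgebraic ℚ (algebraicClosure ℚ Ω) := algebraicClosure.isAlgebraic ℚ Ω

omit [CharZero Ω] in
theorem integral_of_weil {q : ℕ} {c : Ω} (h : IsWeil q c) : IsIntegral ℤ c := by
  obtain ⟨P, hP, h0, -⟩ := h
  exact ⟨P, hP, h0⟩

theorem mem_L {c : Ω} (h : IsIntegral ℤ c) : c ∈ algebraicClosure ℚ Ω :=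
  mem_algebraicClosure_iff.2 (h.tower_top (A := ℚ)).isAlgebraic

theorem aeval_tau {P : ℤ[X]} (c : algebraicClosure ℚ Ω) (τ : algebraicClosure ℚ Ω →ₐ[ℚ] ℂ) :
    aeval (τ c) P = τ (aeval c P) :=
  aeval_algHom_apply (τ.toRingHom.toIntAlgHom) c P

theorem aeval_coe {P : ℤ[X]} (c : algebraicClosure ℚ Ω) :
    aeval (c : Ω) P = ((aeval c P : algebraicClosure ℚ Ω) : Ω) :=
  aeval_algHom_apply ((algebraicClosure ℚ Ω).val.toRingHom.toIntAlgHom) c P

theorem norm_tau {q : ℕ} {c : algebraicClosure ℚ Ω} (h : IsWeil q (c : Ω))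
    (τ : algebraicClosure ℚ Ω →ₐ[ℚ] ℂ) : ‖τ c‖ ^ 2 = (q : ℝ) := by
  obtain ⟨P, hP, h0, hz⟩ := h
  apply hz
  rw [aeval_tau]
  have h1 : aeval c P = 0 := by
    rw [aeval_coe] at h0
    exact Subtype.ext h0
  rw [h1, map_zero]

theorem weil_of {q : ℕ} {c : algebraicClosure ℚ Ω} (hi : IsIntegral ℤ (c : Ω))
    (h : ∀ τ : algebraicClosure ℚ Ω →ₐ[ℚ] ℂ, ‖τ c‖ ^ 2 = (q : ℝ)) : IsWeil q (c : Ω) := by
  refine ⟨minpoly ℤ (c : Ω), minpoly.monic hi, minpoly.aeval _ _, fun z hz => ?_⟩
  have h1 : minpoly ℚ (c : Ω) = (minpoly ℤ (c : Ω)).map (algebraMap ℤ ℚ) :=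
    minpoly.isIntegrallyClosed_eq_field_fractions' ℚ hi
  have h2 : minpoly ℚ (c : Ω) = minpoly ℚ c :=
    minpoly.algebraMap_eq (B := algebraicClosure ℚ Ω) (B' := Ω) Subtype.val_injective c
  have hne : minpoly ℚ c ≠ 0 := minpoly.ne_zero (Algebra.IsIntegral.isIntegral c)
  have h3 : z ∈ (minpoly ℚ c).rootSet ℂ := by
    rw [mem_rootSet]
    refine ⟨hne, ?_⟩
    rw [← h2, h1, aeval_map_algebraMap]
    exact hz
  rw [← Algebra.IsAlgebraic.range_eval_eq_rootSet_minpoly] at h3
  obtain ⟨τ, hτ⟩ := h3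
  rw [← hτ]
  exact h τ

theorem exists_tau : Nonempty (algebraicClosure ℚ Ω →ₐ[ℚ] ℂ) :=
  ⟨IsAlgClosed.lift⟩

end WnAux

open WnAux Polynomial in
theorem t_WN : S_WN := by
  intro Ω _ _ _ q hq
  have hq' : (0 : ℝ) < (q : ℝ) := by exact_mod_cast hq
  obtain ⟨τ⟩ := exists_tau (Ω := Ω)
  have two : ∀ s : Ω, s ^ 2 = q → IsWeil q s := by
    intro s hs
    refine ⟨X ^ 2 - C (q : ℤ), monic_X_pow_sub_C _ (by norm_num), ?_, fun z hz => ?_⟩
    · simp [hs]
    · have h1 : z ^ 2 = (q : ℂ) := by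
        have : z ^ 2 - (q : ℂ) = 0 := by simpa using hz
        exact sub_eq_zero.1 this
      rw [← norm_pow, h1]
      simp
  refine ⟨fun c hc => ?_, two, ?_⟩
  · have hi := integral_of_weil hc
    lift c to algebraicClosure ℚ Ω using mem_L hi
    have hn := norm_tau hc τ
    have hτ0 : τ c ≠ 0 := by
      intro h0
      rw [h0, norm_zero] at hn
      norm_num at hn
      linarith
    have hc0 : c ≠ 0 := by
      rintro rfl
      exact hτ0 (map_zero τ)
    refine ⟨fun h0 => hc0 (Subtype.ext h0), ?_⟩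
    obtain ⟨P, hP, h0, hz⟩ := hc
    refine ⟨P, hP, ?_, hz⟩
    have hcoe : (q : Ω) / (c : Ω) = (((q : algebraicClosure ℚ Ω) / c : algebraicClosure ℚ Ω) : Ω) := by
      push_cast
      rfl
    rw [hcoe, aeval_coe]
    have h1 : aeval ((q : algebraicClosure ℚ Ω) / c) P = 0 := by
      apply τ.toRingHom.injective
      have h2 : τ (aeval ((q : algebraicClosure ℚ Ω) / c) P) = 0 := by
        rw [← aeval_tau, map_div₀, map_natCast]
        have h3 : (q : ℂ) / τ c = (starRingEnd ℂ) (τ c) := by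
          rw [div_eq_iff hτ0, mul_comm, Complex.mul_conj, Complex.normSq_eq_norm_sq, hn]
          simp
        have h4 : aeval (τ c) P = 0 := by
          rw [aeval_tau]
          rw [aeval_coe] at h0
          have : aeval c P = 0 := Subtype.ext h0
          rw [this, map_zero]
        rw [h3]
        have h5 := aeval_algHom_apply ((starRingEnd ℂ).toIntAlgHom) (τ c) P
        have h6 : (starRingEnd ℂ).toIntAlgHom (τ c) = (starRingEnd ℂ) (τ c) := rfl
        rw [h6] at h5
        rw [h5, h4, map_zero]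
      simpa using h2
    rw [h1]
    rfl
  · intro m M s x hm hs hN hx
    have hsW := two s hs
    have hsI := integral_of_weil hsW
    have hmI : IsIntegral ℤ m.prod :=
      IsIntegral.multiset_prod fun c hc => integral_of_weil (hm c hc)
    have hxI : IsIntegral ℤ x := by
      refine IsIntegral.of_pow hN ?_
      rw [hx]
      exact hmI.mul (hsI.pow M)
    have hmL : ∀ c ∈ m, c ∈ algebraicClosure ℚ Ω := fun c hc =>
      mem_L (integral_of_weil (hm c hc))
    lift m to Multiset (algebraicClosure ℚ Ω) using hmL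
    lift s to algebraicClosure ℚ Ω using mem_L hsI
    lift x to algebraicClosure ℚ Ω using mem_L hxI
    refine weil_of hxI fun σ => ?_
    have hx' : x ^ (m.card + M) = m.prod * s ^ M := by
      apply Subtype.ext
      have := hx
      rw [Multiset.card_map] at this
      push_cast
      rw [this]
    have h1 : (‖σ x‖ ^ 2) ^ (m.card + M) = (q : ℝ) ^ (m.card + M) := by
      have h2 : ∀ m : Multiset (algebraicClosure ℚ Ω), (∀ c ∈ m, ‖σ c‖ ^ 2 = (q : ℝ)) →
          ‖σ m.prod‖ ^ 2 = (q : ℝ) ^ m.card := by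
        intro m
        induction m using Multiset.induction_on with
        | empty => simp
        | cons a m ih =>
          intro h
          rw [Multiset.prod_cons, map_mul, norm_mul, mul_pow, Multiset.card_cons, pow_succ (q : ℝ),
            h a (Multiset.mem_cons_self a m), ih fun c hc => h c (Multiset.mem_cons_of_mem hc)]
          ring
      have h3 : ∀ c ∈ m, ‖σ c‖ ^ 2 = (q : ℝ) := fun c hc =>
        norm_tau (hm _ (Multiset.mem_map_of_mem _ hc)) σ
      rw [← pow_mul, mul_comm, pow_mul, ← norm_pow, ← map_pow, hx', map_mul, norm_mul, mul_pow,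
        h2 m h3, map_pow, norm_pow, ← pow_mul, mul_comm M 2, pow_mul, norm_tau hsW σ, pow_add]
    exact (pow_left_inj₀ (by positivity) hq'.le (by
      rw [Multiset.card_map] at hN; omega)).1 h1

end Pool.Agent.NH33.CT

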