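import Pool.Agent.NH33.CT.Main
import Pool.Agent.NH33.CT.Dec
import Pool.Agent.NH33.CT.Eig
import Pool.Agent.NH33.CT.Wn
import Pool.Agent.NH33.CT.Ex
import Pool.Agent.NH33.CT.Prod
import Pool.Agent.NH33.CT.Sum

/-!
# Tate classes on abelian varieties over a finite field: the theorem
-/

set_option autoImplicit false

namespace Pool.Agent.NH33.CT

theorem main : S_MAIN' :=
  t_MAIN' t_DEC t_EIG t_SUM (t_REM t_EX t_PROD t_SUM) (t_CHAIN' t_WN)

end Pool.Agent.NH33.CT
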