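import Pool.Agent.NH33.CT.Rem
import Pool.Agent.NH33.CT.ChainS

/-!
# Tate classes on abelian varieties over a finite field: assembly
-/

set_option autoImplicit false

namespace Pool.Agent.NH33.CT

open Polynomial

/-- The class `f ∈ H^4(X)` is divisible by an eigenvector `e ∈ H^1(X)` of Frobenius whose eigenvalue
`s` is a square root of `q = p ^ n`: it vanishes if all variables are in the kernel of `e`. -/
def HasSupersingularFactor {p n : ℕ} [Fact p.Prime] {Ω : Type} [Field Ω] (X : AV p n Ω)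
    (f : X.V [⋀^Fin 4]→ₗ[Ω] Ω) : Prop :=
  ∃ (e : X.V →ₗ[Ω] Ω) (s : Ω), s ^ 2 = (p : Ω) ^ n ∧ (∀ v, e (X.F v) = s * e v) ∧
    ∀ v : Fin 4 → X.V, (∀ k, e (v k) = 0) → f v = 0

/-- The theorem, with the condition on the classes of degree four. -/
def S_MAIN' : Prop := ∀ (p n : ℕ) [Fact p.Prime] (Ω : Type) [Field Ω] [IsAlgClosed Ω] [CharZero Ω],
  0 < n → ∀ 𝒜 : Sys p n Ω,
  (∀ (X : AV p n Ω) (f : X.V [⋀^Fin 2]→ₗ[Ω] Ω), IsTate X f 1 → 𝒜.A X (Fin 2) f) →
  (∀ (X : AV p n Ω) (f : X.V [⋀^Fin 4]→ₗ[Ω] Ω), IsTate X f 2 → HasSupersingularFactor X f →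
    𝒜.A X (Fin 4) f) →
  ∀ (X : AV p n Ω) (κ : Type) (f : X.V [⋀^κ]→ₗ[Ω] Ω) (j : ℕ), Finite κ → IsTate X f j → 𝒜.A X κ f

namespace Main

variable {p n : ℕ} [Fact p.Prime] {Ω : Type} [Field Ω]

/-- The action of Frobenius on a determinant form. -/
theorem df_F (X : AV p n Ω) {κ : Type} [Fintype κ] [DecidableEq κ] (l : κ → Module.Dual Ω X.V)
    (c : κ → Ω) (h : Eig X l c) (v : κ → X.V) :
    df l (fun k => X.F (v k)) = (∏ k, c k) * df l v := by
  rw [df_apply, df_apply, ← Matrix.det_mul_row]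
  congr 1
  ext j i
  rw [Matrix.of_apply, Matrix.of_apply, Matrix.of_apply, h]

theorem df_reindex {V : Type} [AddCommGroup V] [Module Ω V] {κ κ' : Type} [Fintype κ]
    [DecidableEq κ] [Fintype κ'] [DecidableEq κ'] (e : κ ≃ κ') (l : κ' → Module.Dual Ω V) :
    df l = (df (fun k => l (e k))).domDomCongr e := by
  ext v
  rw [AlternatingMap.domDomCongr_apply, df_apply, df_apply]
  have h1 : (Matrix.of fun j i : κ => l (e i) (v (e j))) =
      (Matrix.of fun j i : κ' => l i (v j)).submatrix e e := rfl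
  have h2 : (Matrix.of fun j i : κ => l (e i) ((v ∘ e) j)) =
      (Matrix.of fun j i : κ => l (e i) (v (e j))) := rfl
  change _ = Matrix.det (Matrix.of fun j i : κ => l (e i) ((v ∘ e) j))
  rw [h2, h1, Matrix.det_submatrix_equiv_self]

/-- A determinant form vanishes on the kernel of each functional. -/
theorem df_vanish {V : Type} [AddCommGroup V] [Module Ω V] {κ : Type} [Fintype κ]
    [DecidableEq κ] (l : κ → Module.Dual Ω V) (k : κ) (v : κ → V) (h : ∀ j, l k (v j) = 0) :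
    df l v = 0 := by
  rw [df_apply]
  exact Matrix.det_eq_zero_of_column_eq_zero k fun j => h j

/-- Families of given cardinality. -/
theorem alg_of (𝒜 : Sys p n Ω) (j : ℕ) (s : Ω)
    (h : ∀ (X : AV p n Ω) (f : X.V [⋀^Fin (2 * j)]→ₗ[Ω] Ω), IsTate X f j →
      (∃ e : X.V →ₗ[Ω] Ω, (∀ v, e (X.F v) = s * e v) ∧
        ∀ v : Fin (2 * j) → X.V, (∀ k, e (v k) = 0) → f v = 0) →
      𝒜.A X (Fin (2 * j)) f)
    (m : Multiset Ω) (hs : s ∈ m) (hm : m.card = 2 * j) (hprod : m.prod = (p : Ω) ^ (n * j)) :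
    Alg 𝒜 m := by
  intro X κ _ _ l c hE hc
  have hcard : Fintype.card κ = 2 * j := by
    rw [← hm, ← hc, Multiset.card_map]
    rfl
  have e : κ ≃ Fin (2 * j) := Fintype.equivFinOfCardEq hcard
  have h1 : ∏ k, c k = (p : Ω) ^ (n * j) := by
    rw [← hprod, ← hc]
    rfl
  have h2 : IsTate X (df (fun k => l (e.symm k))) j := by
    refine ⟨by rw [Nat.card_eq_fintype_card, Fintype.card_fin], fun v => ?_⟩
    rw [df_F X (fun k => l (e.symm k)) (fun k => c (e.symm k)) (fun k v => hE _ v) v,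
      Equiv.prod_comp e.symm c, h1]
  obtain ⟨k, -, hk⟩ := Multiset.mem_map.1 (hc ▸ hs)
  have h3 := 𝒜.reindex e.symm _ (h X _ h2 ⟨l k, fun v => by rw [← hk]; exact hE k v,
    fun v hv => df_vanish (fun k => l (e.symm k)) (e k) v
      (by simp only [Equiv.symm_apply_apply]; exact hv)⟩)
  rwa [← df_reindex] at h3

end Main

open Main in
/-- **The theorem.** -/
theorem t_MAIN' (hdec : S_DEC) (heig : S_EIG) (hsum : S_SUM) (hrem : S_REM)
    (hchain : S_CHAIN') : S_MAIN' := by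
  intro p n _ Ω _ _ _ hn 𝒜 h2 h4 X κ f j hfin hf
  have hp : 0 < p := (Fact.out : p.Prime).pos
  have hcast : ((p ^ n : ℕ) : Ω) = (p : Ω) ^ n := by push_cast; rfl
  have hpair : ∀ a b : Ω, a * b = (p : Ω) ^ n → Alg 𝒜 {a, b} := by
    intro a b hab
    refine alg_of 𝒜 1 a (fun X f hf _ => h2 X f hf) {a, b} (by simp) (by simp) ?_
    rw [Multiset.insert_eq_cons, Multiset.prod_cons, Multiset.prod_singleton, hab, mul_one]
  have hquad : ∀ a b c d : Ω, d ^ 2 = ((p ^ n : ℕ) : Ω) →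
      a * b * c * d = ((p ^ n : ℕ) : Ω) ^ 2 → Alg 𝒜 {a, b, c, d} := by
    intro a b c d hd habcd
    refine alg_of 𝒜 2 d (fun X f hf he => h4 X f hf ?_) {a, b, c, d} (by simp) (by simp) ?_
    · obtain ⟨e, h1, h3⟩ := he
      exact ⟨e, d, by rw [hd, hcast], h1, h3⟩
    rw [Multiset.insert_eq_cons, Multiset.insert_eq_cons, Multiset.insert_eq_cons,
      Multiset.prod_cons, Multiset.prod_cons, Multiset.prod_cons, Multiset.prod_singleton,
      pow_mul, ← hcast, ← habcd]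
    ring
  have hall := hchain Ω (p ^ n) (pow_pos hp n) (Alg 𝒜) (Rem.alg_zero 𝒜) (hsum p n Ω 𝒜)
    (fun a b hab => hpair a b (by rw [hab, hcast])) hquad
    (fun m a b ha hab => hrem p n Ω hn 𝒜 hpair m a b ha (by rw [hab, hcast]))
  classical
  have := Fintype.ofFinite κ
  have hspan := hdec p n Ω X κ f j hf
  refine Submodule.span_induction (p := fun g _ => 𝒜.A X κ g) ?_ (𝒜.zero X κ)
    (fun g h _ _ hg hh => 𝒜.add g h hg hh) (fun a g _ hg => 𝒜.smul a g hg) hspan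
  rintro g ⟨l, c, hE, hl, hprod, rfl⟩
  refine hall (Finset.univ.val.map c) j ?_ ?_ ?_ X κ l c hE rfl
  · intro x hx
    obtain ⟨k, -, rfl⟩ := Multiset.mem_map.1 hx
    exact heig p n Ω X (l k) (c k) (hl k) (hE k)
  · rw [Multiset.card_map, Finset.card_val, Finset.card_univ, ← Nat.card_eq_fintype_card, hf.1]
  · rw [hcast, ← pow_mul, ← hprod]
    rfl

end Pool.Agent.NH33.CT
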