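import Pool.Agent.NH33.CT.Stm

/-!
# Leaving out pairs
-/

set_option autoImplicit false

namespace Pool.Agent.NH33.CT

open Polynomial

namespace Rem

variable {p n : ℕ} [Fact p.Prime] {Ω : Type} [Field Ω]

theorem alg_zero (𝒜 : Sys p n Ω) : Alg 𝒜 0 := by
  intro X κ _ _ l c _ hc
  have h1 : (Finset.univ : Finset κ).card = 0 := by
    rw [← Finset.card_val, ← Multiset.card_map c, hc, Multiset.card_zero]
  have h2 : IsEmpty κ := Finset.univ_eq_empty_iff.1 (Finset.card_eq_zero.1 h1)
  exact 𝒜.unit _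

theorem alg_pairs (hsum : S_SUM) [CharZero Ω] (𝒜 : Sys p n Ω)
    (hp : ∀ a b : Ω, a * b = (p : Ω) ^ n → Alg 𝒜 {a, b}) (m : Multiset Ω) (hm : ∀ c ∈ m, c ≠ 0) :
    Alg 𝒜 (m + m.map fun c => (p : Ω) ^ n / c) := by
  induction m using Multiset.induction_on with
  | empty =>
    rw [Multiset.map_zero, add_zero]
    exact alg_zero 𝒜
  | cons c m ih =>
    have h1 : (c ::ₘ m) + (c ::ₘ m).map (fun c => (p : Ω) ^ n / c) =
        {c, (p : Ω) ^ n / c} + (m + m.map fun c => (p : Ω) ^ n / c) := by
      rw [Multiset.map_cons, Multiset.cons_add, Multiset.add_cons, Multiset.insert_eq_cons,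
        Multiset.cons_add, Multiset.singleton_add]
    rw [h1]
    refine hsum p n Ω 𝒜 _ _ (hp _ _ ?_) (ih fun c hc => hm c (Multiset.mem_cons_of_mem hc))
    exact mul_div_cancel₀ _ (hm c (Multiset.mem_cons_self _ _))

end Rem

open Rem in
/-- **REM** -/
theorem t_REM (hex : S_EX) (hprod : S_PROD) (hsum : S_SUM) : S_REM := by
  intro p n _ Ω _ _ _ hn 𝒜 hp m a b ha hab h X κ _ _ l c hE hc
  obtain ⟨Y, κ', _, _, B, e, m', hF, hmap, hne⟩ := hex p n Ω hn a ha
  obtain ⟨Z, i, j, hi, hj, hbij⟩ := hprod p n Ω X Y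
  have ha0 : a ≠ 0 := by
    rintro rfl
    rw [zero_mul] at hab
    exact pow_ne_zero n (Nat.cast_ne_zero.2 (Fact.out : p.Prime).ne_zero) hab.symm
  have hb : (p : Ω) ^ n / a = b := by rw [← hab, mul_div_cancel_left₀ _ ha0]
  -- the projections
  let E : (X.V × Y.V) ≃ₗ[Ω] Z.V := LinearEquiv.ofBijective (i.coprod j) (by
    have h1 : (fun w : X.V × Y.V => i w.1 + j w.2) = (i.coprod j) := by
      funext w
      rw [LinearMap.coprod_apply]
    rw [← h1]
    exact hbij)
  have hEapp : ∀ w : X.V × Y.V, E w = i w.1 + j w.2 := fun w => LinearMap.coprod_apply _ _ _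
  let prX : Z.V →ₗ[Ω] X.V := LinearMap.fst Ω X.V Y.V ∘ₗ E.symm.toLinearMap
  let prY : Z.V →ₗ[Ω] Y.V := LinearMap.snd Ω X.V Y.V ∘ₗ E.symm.toLinearMap
  have hX : ∀ w : X.V × Y.V, prX (E w) = w.1 := fun w => by
    change (E.symm (E w)).1 = w.1
    rw [E.symm_apply_apply]
  have hY : ∀ w : X.V × Y.V, prY (E w) = w.2 := fun w => by
    change (E.symm (E w)).2 = w.2
    rw [E.symm_apply_apply]
  have hFE : ∀ w : X.V × Y.V, Z.F (E w) = E (X.F w.1, Y.F w.2) := fun w => by
    rw [hEapp, hEapp, map_add, ← hi, ← hj]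
  let L : κ ⊕ κ' → Module.Dual Ω Z.V :=
    Sum.elim (fun k => (l k) ∘ₗ prX) (fun k => (B.coord k) ∘ₗ prY)
  have hL : Eig Z L (Sum.elim c e) := by
    intro k z
    obtain ⟨w, rfl⟩ := E.surjective z
    rw [hFE]
    cases k with
    | inl k =>
      change l k (prX (E (X.F w.1, Y.F w.2))) = c k * l k (prX (E w))
      rw [hX, hX]
      exact hE k w.1
    | inr k =>
      change B.coord k (prY (E (X.F w.1, Y.F w.2))) = e k * B.coord k (prY (E w))
      rw [hY, hY]
      change B.coord k (Y.F w.2) = e k * B.coord k w.2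
      have h1 : (B.coord k) ∘ₗ Y.F = e k • B.coord k := by
        apply B.ext
        intro k'
        rw [LinearMap.comp_apply, hF, map_smul, LinearMap.smul_apply, Module.Basis.coord_apply,
          Module.Basis.repr_self, smul_eq_mul, smul_eq_mul]
        by_cases hk : k = k'
        · subst hk
          rfl
        · rw [Finsupp.single_eq_of_ne hk, mul_zero, mul_zero]
      exact LinearMap.congr_fun h1 w.2
  have hm : (Finset.univ : Finset (κ ⊕ κ')).val.map (Sum.elim c e) =
      (m + {a, b}) + (m' + m'.map fun c => (p : Ω) ^ n / c) := by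
    have h1 : (Finset.univ : Finset (κ ⊕ κ')).val.map (Sum.elim c e) =
        Finset.univ.val.map c + Finset.univ.val.map e := by
      rw [← Finset.univ_disjSum_univ, Finset.val_disjSum, Multiset.disjSum, Multiset.map_add,
        Multiset.map_map, Multiset.map_map]
      rfl
    rw [h1, hc, hmap, hb, Multiset.insert_eq_cons, add_assoc, Multiset.cons_add,
      Multiset.singleton_add]
  have hA : 𝒜.A Z (κ ⊕ κ') (df L) :=
    hsum p n Ω 𝒜 _ _ h (alg_pairs hsum 𝒜 hp m' hne) Z (κ ⊕ κ') L (Sum.elim c e) hL hm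
  refine 𝒜.push i j ⟨hi, hj, hbij⟩ B (df L) hA (df l) fun v => ?_
  rw [df_apply, df_apply]
  have hix : ∀ x, i x = E (x, 0) := fun x => by rw [hEapp, map_zero, add_zero]
  have hjy : ∀ y, j y = E (0, y) := fun y => by rw [hEapp, map_zero, zero_add]
  have h1 : (Matrix.of fun j' i' : κ ⊕ κ' =>
      L i' (Sum.elim (fun k => i (v k)) (fun k => j (B k)) j')) =
      Matrix.fromBlocks (Matrix.of fun j' i' => l i' (v j')) 0 0 1 := by
    ext j' i'
    rw [Matrix.of_apply]
    cases j' with
    | inl j' =>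
      cases i' with
      | inl i' =>
        change l i' (prX (i (v j'))) = l i' (v j')
        rw [hix, hX]
      | inr i' =>
        change B.coord i' (prY (i (v j'))) = 0
        rw [hix, hY, map_zero]
    | inr j' =>
      cases i' with
      | inl i' =>
        change l i' (prX (j (B j'))) = 0
        rw [hjy, hX, map_zero]
      | inr i' =>
        change B.coord i' (prY (j (B j'))) = (1 : Matrix κ' κ' Ω) j' i'
        rw [hjy, hY, Module.Basis.coord_apply, Module.Basis.repr_self, Matrix.one_apply]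
        by_cases hk : j' = i'
        · subst hk
          rw [Finsupp.single_eq_same, if_pos rfl]
        · rw [Finsupp.single_eq_of_ne (Ne.symm hk), if_neg hk]
  rw [h1, Matrix.det_fromBlocks_zero₂₁, Matrix.det_one, mul_one]

end Pool.Agent.NH33.CT
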