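import Pool.Agent.NH33.CT.Def

/-!
# Tate classes on abelian varieties over a finite field: statements of the parts

The theorem: a system of classes on the abelian varieties over the field with `q` elements which
contains all Tate classes of codimension one and two contains all Tate classes.

Idea. A Tate class is a linear combination of the forms `det (l_i (v_j))`, where the `l_i` are
eigenvectors in `H^1(X, Ω)` whose eigenvalues `c_i` (Weil numbers) have product `q ^ j` (DEC). Let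
`Alg m`, `m` a finite family of Weil numbers, say that all these forms with eigenvalues `m` are in the
system. `Alg` is stable under unions (SUM), and a pair `a, q / a` may be left out (REM: push-forward
along a product with an abelian variety with eigenvalue `a`). The families `{a, b, q / c, s}` with
`s = √q` and `a b = c s` are in codimension two; roots of Weil numbers are Weil numbers (WN), and with
`ρ_i ^ N = c_i s ^ (N - 1)` for `N` large all partial products `ρ_1 ... ρ_j / s ^ (j - 1)` are Weil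
numbers: so all families can be built from families of two and four numbers (CHAIN).
-/

set_option autoImplicit false

namespace Pool.Agent.NH33.CT

open Polynomial

/-- `c` is a Weil number: an algebraic integer all of whose conjugates have absolute value `√q` -/
def IsWeil {Ω : Type} [Field Ω] (q : ℕ) (c : Ω) : Prop :=
  ∃ P : ℤ[X], P.Monic ∧ aeval c P = 0 ∧ ∀ z : ℂ, aeval z P = 0 → ‖z‖ ^ 2 = (q : ℝ)

section

variable {p n : ℕ} [Fact p.Prime] {Ω : Type} [Field Ω]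

/-- the form `det (l_i (v_j))` -/
def df {V : Type} [AddCommGroup V] [Module Ω V] {κ : Type} [Fintype κ] [DecidableEq κ]
    (l : κ → Module.Dual Ω V) : V [⋀^κ]→ₗ[Ω] Ω :=
  Matrix.detRowAlternating.compLinearMap (LinearMap.pi l)

theorem df_apply {V : Type} [AddCommGroup V] [Module Ω V] {κ : Type} [Fintype κ] [DecidableEq κ]
    (l : κ → Module.Dual Ω V) (v : κ → V) : df l v = Matrix.det (Matrix.of fun j i => l i (v j)) := rfl

/-- the functionals `l k` are eigenvectors of Frobenius for the eigenvalues `c k` -/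
def Eig (X : AV p n Ω) {κ : Type} (l : κ → Module.Dual Ω X.V) (c : κ → Ω) : Prop :=
  ∀ k v, l k (X.F v) = c k * l k v

/-- all forms `df l` with eigenvalues `m` are in the system -/
def Alg (𝒜 : Sys p n Ω) (m : Multiset Ω) : Prop :=
  ∀ (X : AV p n Ω) (κ : Type) [Fintype κ] [DecidableEq κ] (l : κ → Module.Dual Ω X.V) (c : κ → Ω),
    Eig X l c → Finset.univ.val.map c = m → 𝒜.A X κ (df l)

end

/-- **DEC**: Tate classes are linear combinations of forms given by eigenvectors -/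
def S_DEC : Prop := ∀ (p n : ℕ) [Fact p.Prime] (Ω : Type) [Field Ω] [CharZero Ω] (X : AV p n Ω)
  (κ : Type) [Fintype κ] [DecidableEq κ] (f : X.V [⋀^κ]→ₗ[Ω] Ω) (j : ℕ), IsTate X f j →
  f ∈ Submodule.span Ω {g | ∃ (l : κ → Module.Dual Ω X.V) (c : κ → Ω), Eig X l c ∧
    (∀ k, l k ≠ 0) ∧ ∏ k, c k = (p : Ω) ^ (n * j) ∧ g = df l}

/-- **EIG**: the eigenvalues are Weil numbers -/
def S_EIG : Prop := ∀ (p n : ℕ) [Fact p.Prime] (Ω : Type) [Field Ω] (X : AV p n Ω)
  (l : Module.Dual Ω X.V) (c : Ω), l ≠ 0 → (∀ v, l (X.F v) = c * l v) → IsWeil (p ^ n) c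

/-- **WN**: Weil numbers -/
def S_WN : Prop := ∀ (Ω : Type) [Field Ω] [IsAlgClosed Ω] [CharZero Ω] (q : ℕ), 0 < q →
  (∀ c : Ω, IsWeil q c → c ≠ 0 ∧ IsWeil q ((q : Ω) / c)) ∧
  (∀ s : Ω, s ^ 2 = q → IsWeil q s) ∧
  ∀ (m : Multiset Ω) (M : ℕ) (s x : Ω), (∀ c ∈ m, IsWeil q c) → s ^ 2 = q → 0 < m.card + M →
    x ^ (m.card + M) = m.prod * s ^ M → IsWeil q x

/-- **EX**: there is an abelian variety with a given Weil number -/
def S_EX : Prop := ∀ (p n : ℕ) [Fact p.Prime] (Ω : Type) [Field Ω] [IsAlgClosed Ω] [CharZero Ω],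
  0 < n → ∀ a : Ω, IsWeil (p ^ n) a → ∃ (Y : AV p n Ω) (κ : Type) (_ : Fintype κ)
    (_ : DecidableEq κ) (b : Module.Basis κ Ω Y.V) (e : κ → Ω) (m : Multiset Ω),
    (∀ k, Y.F (b k) = e k • b k) ∧
    Finset.univ.val.map e = a ::ₘ ((p : Ω) ^ n / a) ::ₘ (m + m.map fun c => (p : Ω) ^ n / c) ∧
    ∀ c ∈ m, c ≠ 0

/-- **PROD**: products -/
def S_PROD : Prop := ∀ (p n : ℕ) [Fact p.Prime] (Ω : Type) [Field Ω] (X Y : AV p n Ω),
  ∃ (Z : AV p n Ω) (i : X.V →ₗ[Ω] Z.V) (j : Y.V →ₗ[Ω] Z.V), IsProd i j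

/-- **SUM**: unions -/
def S_SUM : Prop := ∀ (p n : ℕ) [Fact p.Prime] (Ω : Type) [Field Ω] [CharZero Ω]
  (𝒜 : Sys p n Ω) (m m' : Multiset Ω), Alg 𝒜 m → Alg 𝒜 m' → Alg 𝒜 (m + m')

/-- **REM**: pairs `a, b` with `a b = q` may be left out -/
def S_REM : Prop := ∀ (p n : ℕ) [Fact p.Prime] (Ω : Type) [Field Ω] [IsAlgClosed Ω] [CharZero Ω],
  0 < n → ∀ 𝒜 : Sys p n Ω, (∀ a b : Ω, a * b = (p : Ω) ^ n → Alg 𝒜 {a, b}) →
  ∀ (m : Multiset Ω) (a b : Ω), IsWeil (p ^ n) a → a * b = (p : Ω) ^ n → Alg 𝒜 (m + {a, b}) → Alg 𝒜 m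

/-- **CHAIN**: all families of Weil numbers -/
def S_CHAIN : Prop := ∀ (Ω : Type) [Field Ω] [IsAlgClosed Ω] [CharZero Ω] (q : ℕ), 0 < q →
  ∀ T : Multiset Ω → Prop, T 0 → (∀ m m', T m → T m' → T (m + m')) →
  (∀ a b : Ω, a * b = q → T {a, b}) → (∀ a b c d : Ω, a * b * c * d = q ^ 2 → T {a, b, c, d}) →
  (∀ (m : Multiset Ω) (a b : Ω), IsWeil q a → a * b = q → T (m + {a, b}) → T m) →
  ∀ (m : Multiset Ω) (r : ℕ), (∀ c ∈ m, IsWeil q c) → m.card = 2 * r → m.prod = q ^ r → T m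

/-- The theorem. -/
def S_MAIN : Prop := ∀ (p n : ℕ) [Fact p.Prime] (Ω : Type) [Field Ω] [IsAlgClosed Ω] [CharZero Ω],
  0 < n → ∀ 𝒜 : Sys p n Ω,
  (∀ (X : AV p n Ω) (f : X.V [⋀^Fin 2]→ₗ[Ω] Ω), IsTate X f 1 → 𝒜.A X (Fin 2) f) →
  (∀ (X : AV p n Ω) (f : X.V [⋀^Fin 4]→ₗ[Ω] Ω), IsTate X f 2 → 𝒜.A X (Fin 4) f) →
  ∀ (X : AV p n Ω) (κ : Type) (f : X.V [⋀^κ]→ₗ[Ω] Ω) (j : ℕ), Finite κ → IsTate X f j → 𝒜.A X κ f

end Pool.Agent.NH33.CT
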